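import Mathlib

/-! Alternation lemma (combinatorial form of Lovász's lemma). -/

set_option autoImplicit false

namespace Pool.Agent.H268R2.HL

open Finset

/-- number of `j ∈ I` with (`U j` and `f j < f i`) or (not `U j` and `f i < f j`) -/
noncomputable def gg {ι : Type*} (f : ι → ℝ) (U : ι → Prop) [DecidablePred U] (I : Finset ι) (i : ι) : ℕ := by
  classical
  exact (I.filter (fun j => (U j ∧ f j < f i) ∨ (¬ U j ∧ f i < f j))).card

theorem gg_def {ι : Type*} (f : ι → ℝ) (U : ι → Prop) [DecidablePred U] (I : Finset ι) (i : ι) :
    gg f U I i = (I.filter (fun j => (U j ∧ f j < f i) ∨ (¬ U j ∧ f i < f j))).card := by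
  unfold gg
  congr!

theorem alt {ι : Type*} [DecidableEq ι] (f : ι → ℝ) (U : ι → Prop) [DecidablePred U]
    (I : Finset ι) : Set.InjOn f I → ∀ h : ℕ,
    (I.filter (fun i => ¬ U i ∧ gg f U I i = h)).card + (if h < (I.filter U).card then 1 else 0) =
    (I.filter (fun i => U i ∧ gg f U I i = h)).card +
      (if h < (I.filter (fun i => ¬ U i)).card then 1 else 0) := by
  induction I using Finset.induction_on_max_value f with
  | empty => intro _ h; simp
  | insert z I hz hmax ih =>
    intro hinj h
    have hinjI : Set.InjOn f I := hinj.mono (by simp)
    have hlt : ∀ i ∈ I, f i < f z := by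
      intro i hi
      refine lt_of_le_of_ne (hmax i hi) (fun he => hz ?_)
      have := hinj (by simp [hi]) (by simp) he
      rwa [← this]
    have ih := ih hinjI
    have hgz : gg f U (insert z I) z = (I.filter U).card := by
      rw [gg_def]
      congr 1
      ext j
      simp only [mem_filter, mem_insert]
      constructor
      · rintro ⟨rfl | hj, h | h⟩
        · exact absurd h.2 (lt_irrefl _)
        · exact absurd h.2 (lt_irrefl _)
        · exact ⟨hj, h.1⟩
        · exact absurd h.2 (not_lt.mpr (hlt j hj).le)
      · rintro ⟨hj, h⟩
        exact ⟨Or.inr hj, Or.inl ⟨h, hlt j hj⟩⟩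
    by_cases hU : U z
    · have hgi : ∀ i ∈ I, gg f U (insert z I) i = gg f U I i := by
        intro i hi
        rw [gg_def, gg_def, filter_insert, if_neg]
        rintro (h | h)
        · exact absurd h.2 (not_lt.mpr (hlt i hi).le)
        · exact h.1 hU
      have e1 : (insert z I).filter (fun i => ¬ U i ∧ gg f U (insert z I) i = h) =
          I.filter (fun i => ¬ U i ∧ gg f U I i = h) := by
        rw [filter_insert, if_neg (by simp [hU])]
        apply filter_congr
        intro i hi
        rw [hgi i hi]
      have e2 : ((insert z I).filter (fun i => U i ∧ gg f U (insert z I) i = h)).card =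
          (I.filter (fun i => U i ∧ gg f U I i = h)).card +
            (if (I.filter U).card = h then 1 else 0) := by
        have : I.filter (fun i => U i ∧ gg f U (insert z I) i = h) =
            I.filter (fun i => U i ∧ gg f U I i = h) := by
          apply filter_congr
          intro i hi
          rw [hgi i hi]
        rw [filter_insert, this, hgz]
        by_cases hc : (I.filter U).card = h
        · rw [if_pos ⟨hU, hc⟩, if_pos hc, card_insert_of_notMem (by simp [hz])]
        · rw [if_neg (by tauto), if_neg hc]
          rfl
      have e3 : ((insert z I).filter U).card = (I.filter U).card + 1 := by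
        rw [filter_insert, if_pos hU, card_insert_of_notMem (by simp [hz])]
      have e4 : (insert z I).filter (fun i => ¬ U i) = I.filter (fun i => ¬ U i) := by
        rw [filter_insert, if_neg (by simp [hU])]
      rw [e1, e2, e3, e4]
      have := ih h
      split_ifs at this ⊢ <;> omega
    · have hgi : ∀ i ∈ I, gg f U (insert z I) i = gg f U I i + 1 := by
        intro i hi
        rw [gg_def, gg_def, filter_insert, if_pos (Or.inr ⟨hU, hlt i hi⟩),
          card_insert_of_notMem (by simp [hz])]
      have e1 : ((insert z I).filter (fun i => ¬ U i ∧ gg f U (insert z I) i = h)).card =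
          (I.filter (fun i => ¬ U i ∧ gg f U I i + 1 = h)).card +
            (if (I.filter U).card = h then 1 else 0) := by
        have : I.filter (fun i => ¬ U i ∧ gg f U (insert z I) i = h) =
            I.filter (fun i => ¬ U i ∧ gg f U I i + 1 = h) := by
          apply filter_congr
          intro i hi
          rw [hgi i hi]
        rw [filter_insert, this, hgz]
        by_cases hc : (I.filter U).card = h
        · rw [if_pos ⟨hU, hc⟩, if_pos hc, card_insert_of_notMem (by simp [hz])]
        · rw [if_neg (by tauto), if_neg hc]
          rfl
      have e2 : (insert z I).filter (fun i => U i ∧ gg f U (insert z I) i = h) =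
          I.filter (fun i => U i ∧ gg f U I i + 1 = h) := by
        rw [filter_insert, if_neg (by simp [hU])]
        apply filter_congr
        intro i hi
        rw [hgi i hi]
      have e3 : (insert z I).filter U = I.filter U := by
        rw [filter_insert, if_neg hU]
      have e4 : ((insert z I).filter (fun i => ¬ U i)).card = (I.filter (fun i => ¬ U i)).card + 1 := by
        rw [filter_insert, if_pos hU, card_insert_of_notMem (by simp [hz])]
      rw [e1, e2, e3, e4]
      rcases h with _ | h
      · simp only [Nat.add_eq_zero_iff, one_ne_zero, and_false, filter_false, card_empty]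
        split_ifs <;> omega
      · have := ih h
        simp only [Nat.add_right_cancel_iff]
        split_ifs at this ⊢ <;> omega

theorem alt_le {ι : Type*} [DecidableEq ι] (f : ι → ℝ) (U : ι → Prop) [DecidablePred U]
    (I : Finset ι) (hf : Set.InjOn f I) (h : ℕ) :
    (I.filter (fun i => ¬ U i ∧ gg f U I i = h)).card ≤
      (I.filter (fun i => U i ∧ gg f U I i = h)).card + 1 ∧
    (I.filter (fun i => U i ∧ gg f U I i = h)).card ≤
      (I.filter (fun i => ¬ U i ∧ gg f U I i = h)).card + 1 := by
  have := alt f U I hf h
  split_ifs at this <;> omega

end Pool.Agent.H268R2.HL
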