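import Mathlib

/-! Definitions: lines, general position, halving lines, convex position. -/

set_option autoImplicit false

namespace Pool.Agent.H268R2.HL

/-- the line `a x + b y = c` -/
def Line (a b c : ℝ) : Set (ℝ × ℝ) := {p | a * p.1 + b * p.2 = c}

/-- General position: no three distinct points of `P` lie on a common line. -/
def GeneralPosition (P : Finset (ℝ × ℝ)) : Prop :=
  ∀ a b c : ℝ, (a ≠ 0 ∨ b ≠ 0) → ∀ p ∈ P, ∀ q ∈ P, ∀ r ∈ P, p ≠ q → p ≠ r → q ≠ r →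
    ¬ (p ∈ Line a b c ∧ q ∈ Line a b c ∧ r ∈ Line a b c)

/-- `L` is a bisector (halving line) of `P`: a line through two points of `P` such that each of
the two open half-planes bounded by it contains exactly `|P| / 2 - 1` points of `P`. -/
def IsBisector (P : Finset (ℝ × ℝ)) (L : Set (ℝ × ℝ)) : Prop :=
  ∃ a b c : ℝ, (a ≠ 0 ∨ b ≠ 0) ∧ L = Line a b c ∧
    (∃ p ∈ P, ∃ q ∈ P, p ≠ q ∧ p ∈ L ∧ q ∈ L) ∧
    {p : ℝ × ℝ | p ∈ P ∧ a * p.1 + b * p.2 < c}.ncard = P.card / 2 - 1 ∧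
    {p : ℝ × ℝ | p ∈ P ∧ c < a * p.1 + b * p.2}.ncard = P.card / 2 - 1

/-- convex position: no point of `Q` lies in the convex hull of the other points of `Q` -/
def ConvexPosition (Q : Finset (ℝ × ℝ)) : Prop :=
  ∀ q ∈ Q, q ∉ convexHull ℝ {p : ℝ × ℝ | p ∈ Q ∧ p ≠ q}

end Pool.Agent.H268R2.HL
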