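import Pool.Agent.H268R2.HL.Defs

/-! Convex cuts and convexly independent subsets: abstract counting theorem. -/

set_option autoImplicit false

namespace Pool.Agent.H268R2.HL

open Finset Filter Topology

theorem eventually_ne {c0 c1 c2 : ℝ} (h : c0 ≠ 0 ∨ c1 ≠ 0 ∨ c2 ≠ 0) :
    ∀ᶠ e : ℝ in 𝓝[>] 0, c0 + c1 * e + c2 * e ^ 2 ≠ 0 := by
  by_cases h0 : c0 = 0
  · subst h0
    by_cases h1 : c1 = 0
    · subst h1
      have h2 : c2 ≠ 0 := by simpa using h
      filter_upwards [self_mem_nhdsWithin] with e he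
      have he' : (0 : ℝ) < e := he
      have : c2 * e ^ 2 ≠ 0 := mul_ne_zero h2 (by positivity)
      simpa using this
    · have hc : Tendsto (fun e : ℝ => c1 + c2 * e) (𝓝[>] 0) (𝓝 c1) := by
        have : Tendsto (fun e : ℝ => c1 + c2 * e) (𝓝 0) (𝓝 (c1 + c2 * 0)) := by
          apply Continuous.tendsto; fun_prop
        rw [mul_zero, add_zero] at this
        exact this.mono_left nhdsWithin_le_nhds
      filter_upwards [hc.eventually_ne h1, self_mem_nhdsWithin] with e he he'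
      have he'' : (0 : ℝ) < e := he'
      have : 0 + c1 * e + c2 * e ^ 2 = e * (c1 + c2 * e) := by ring
      rw [this]
      exact mul_ne_zero he''.ne' he
  · have hc : Tendsto (fun e : ℝ => c0 + c1 * e + c2 * e ^ 2) (𝓝[>] 0) (𝓝 c0) := by
      have : Tendsto (fun e : ℝ => c0 + c1 * e + c2 * e ^ 2) (𝓝 0)
          (𝓝 (c0 + c1 * 0 + c2 * 0 ^ 2)) := by
        apply Continuous.tendsto; fun_prop
      have e : c0 + c1 * 0 + c2 * 0 ^ 2 = c0 := by ring
      rw [e] at this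
      exact this.mono_left nhdsWithin_le_nhds
    exact hc.eventually_ne h0

/-- generic strict separation -/
theorem sep (P B : Finset (ℝ × ℝ)) (a : ℝ × ℝ) (ha : a ∉ convexHull ℝ (B : Set (ℝ × ℝ))) :
    ∃ α β : ℝ, β ≠ 0 ∧ (∀ p ∈ P, ∀ q ∈ P, α * p.1 + β * p.2 = α * q.1 + β * q.2 → p = q) ∧
      ∀ b ∈ B, α * b.1 + β * b.2 < α * a.1 + β * a.2 := by
  have hcl : IsClosed (convexHull ℝ (B : Set (ℝ × ℝ))) :=
    (B.finite_toSet.isCompact_convexHull ℝ).isClosed
  obtain ⟨f, u, hf1, hf2⟩ := geometric_hahn_banach_closed_point (convex_convexHull ℝ (B : Set (ℝ × ℝ))) hcl ha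
  set A := f (1, 0) with hA
  set C := f (0, 1) with hC
  have hfp : ∀ p : ℝ × ℝ, f p = A * p.1 + C * p.2 := by
    intro p
    have : p = p.1 • ((1 : ℝ), (0 : ℝ)) + p.2 • ((0 : ℝ), (1 : ℝ)) := by
      ext <;> simp
    conv_lhs => rw [this]
    rw [map_add, map_smul, map_smul, smul_eq_mul, smul_eq_mul, ← hA, ← hC]
    ring
  have hsep : ∀ b ∈ B, A * b.1 + C * b.2 < A * a.1 + C * a.2 := by
    intro b hb
    have h1 := hf1 b (subset_convexHull ℝ _ hb)
    rw [hfp] at h1 hf2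
    linarith
  have e1 : ∀ᶠ e : ℝ in 𝓝[>] 0, ∀ p ∈ P, ∀ q ∈ P, p ≠ q →
      (A + e) * p.1 + (C + e ^ 2) * p.2 ≠ (A + e) * q.1 + (C + e ^ 2) * q.2 := by
    rw [eventually_all_finset]
    intro p _
    rw [eventually_all_finset]
    intro q _
    by_cases hpq : p = q
    · exact Eventually.of_forall (fun _ h => absurd hpq h)
    · have hne : (A * (p.1 - q.1) + C * (p.2 - q.2)) ≠ 0 ∨ (p.1 - q.1) ≠ 0 ∨ (p.2 - q.2) ≠ 0 := by
        by_contra h
        push Not at h
        apply hpq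
        exact Prod.ext (by linarith [h.2.1]) (by linarith [h.2.2])
      filter_upwards [eventually_ne hne] with e he _ heq
      apply he
      linear_combination heq
  have e2 : ∀ᶠ e : ℝ in 𝓝[>] 0, C + e ^ 2 ≠ 0 := by
    have h := eventually_ne (c0 := C) (c1 := 0) (c2 := 1) (by simp)
    filter_upwards [h] with e he
    intro h'
    apply he
    linear_combination h'
  have e3 : ∀ᶠ e : ℝ in 𝓝[>] 0, ∀ b ∈ B,
      (A + e) * b.1 + (C + e ^ 2) * b.2 < (A + e) * a.1 + (C + e ^ 2) * a.2 := by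
    rw [eventually_all_finset]
    intro b hb
    have h1 : Tendsto (fun e : ℝ => (A + e) * b.1 + (C + e ^ 2) * b.2) (𝓝[>] 0)
        (𝓝 (A * b.1 + C * b.2)) := by
      have : Tendsto (fun e : ℝ => (A + e) * b.1 + (C + e ^ 2) * b.2) (𝓝 0)
          (𝓝 ((A + 0) * b.1 + (C + 0 ^ 2) * b.2)) := by
        apply Continuous.tendsto; fun_prop
      simp only [add_zero, ne_eq, OfNat.ofNat_ne_zero, not_false_eq_true, zero_pow] at this
      exact this.mono_left nhdsWithin_le_nhds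
    have h2 : Tendsto (fun e : ℝ => (A + e) * a.1 + (C + e ^ 2) * a.2) (𝓝[>] 0)
        (𝓝 (A * a.1 + C * a.2)) := by
      have : Tendsto (fun e : ℝ => (A + e) * a.1 + (C + e ^ 2) * a.2) (𝓝 0)
          (𝓝 ((A + 0) * a.1 + (C + 0 ^ 2) * a.2)) := by
        apply Continuous.tendsto; fun_prop
      simp only [add_zero, ne_eq, OfNat.ofNat_ne_zero, not_false_eq_true, zero_pow] at this
      exact this.mono_left nhdsWithin_le_nhds
    exact h1.eventually_lt h2 (hsep b hb)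
  obtain ⟨e, h1, h2, h3⟩ := (e1.and (e2.and e3)).exists
  refine ⟨A + e, C + e ^ 2, h2, ?_, h3⟩
  intro p hp q hq heq
  by_contra hne
  exact h1 p hp q hq hne heq

/-- node inequality: for every generic direction, the edges at `q` going down are at most `t` more
than the edges going up -/
def Node (P : Finset (ℝ × ℝ)) (R : ℝ × ℝ → ℝ × ℝ → Prop) (t : ℕ) : Prop :=
  ∀ q ∈ P, ∀ α β : ℝ, β ≠ 0 →
    (∀ p ∈ P, ∀ q ∈ P, α * p.1 + β * p.2 = α * q.1 + β * q.2 → p = q) →
    {p : ℝ × ℝ | p ∈ P ∧ R q p ∧ α * p.1 + β * p.2 < α * q.1 + β * q.2}.ncard ≤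
      {p : ℝ × ℝ | p ∈ P ∧ R q p ∧ α * q.1 + β * q.2 < α * p.1 + β * p.2}.ncard + t

section
open Classical

/-- number of edges between `P \ B` and `B` -/
noncomputable def cut (P : Finset (ℝ × ℝ)) (R : ℝ × ℝ → ℝ × ℝ → Prop) (B : Finset (ℝ × ℝ)) : ℕ :=
  ((P \ B) ×ˢ B |>.filter (fun z => R z.1 z.2)).card

theorem cut_eq (P : Finset (ℝ × ℝ)) (R : ℝ × ℝ → ℝ × ℝ → Prop) (B : Finset (ℝ × ℝ)) :
    cut P R B = ∑ y ∈ B, ((P \ B).filter (fun x => R x y)).card := by
  unfold cut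
  rw [card_filter, sum_product_right]
  simp only [card_filter]

theorem cut_eq' (P : Finset (ℝ × ℝ)) (R : ℝ × ℝ → ℝ × ℝ → Prop) (B : Finset (ℝ × ℝ)) :
    cut P R B = ∑ x ∈ P \ B, (B.filter (fun y => R x y)).card := by
  unfold cut
  rw [card_filter, sum_product]
  simp only [card_filter]

variable {P : Finset (ℝ × ℝ)} {R : ℝ × ℝ → ℝ × ℝ → Prop} {t : ℕ}

theorem fin_sub (s : ℝ × ℝ → Prop) : {p : ℝ × ℝ | p ∈ P ∧ s p}.Finite :=
  P.finite_toSet.subset (fun _ h => h.1)

theorem ncard_le {T : Finset (ℝ × ℝ)} {s : ℝ × ℝ → Prop} (h : ∀ p, p ∈ P → s p → p ∈ T) :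
    {p : ℝ × ℝ | p ∈ P ∧ s p}.ncard ≤ T.card := by
  rw [← Set.ncard_coe_finset]
  exact Set.ncard_le_ncard (fun p hp => h p hp.1 hp.2) T.finite_toSet

theorem le_ncard {T : Finset (ℝ × ℝ)} {s : ℝ × ℝ → Prop} (h : ∀ p ∈ T, p ∈ P ∧ s p) :
    T.card ≤ {p : ℝ × ℝ | p ∈ P ∧ s p}.ncard := by
  rw [← Set.ncard_coe_finset]
  exact Set.ncard_le_ncard (fun p hp => h p hp) (fin_sub s)

theorem cut_step (hsym : ∀ x y, R x y → R y x) (hN : Node P R t) {S : Finset (ℝ × ℝ)}
    (hS : S ⊆ P) {a : ℝ × ℝ} (haS : a ∈ S) {α β : ℝ} (hβ : β ≠ 0)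
    (hinj : ∀ p ∈ P, ∀ q ∈ P, α * p.1 + β * p.2 = α * q.1 + β * q.2 → p = q)
    (hmax : ∀ s ∈ S, α * s.1 + β * s.2 ≤ α * a.1 + β * a.2) :
    cut P R (S.erase a) ≤ cut P R S + t := by
  have haP := hS haS
  have hnode := hN a haP α β hβ hinj
  have hsd : P \ S.erase a = insert a (P \ S) := by
    ext p
    simp only [Finset.mem_sdiff, mem_erase, mem_insert]
    constructor
    · rintro ⟨h1, h2⟩
      by_cases hp : p = a
      · exact Or.inl hp
      · exact Or.inr ⟨h1, fun h => h2 ⟨hp, h⟩⟩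
    · rintro (rfl | ⟨h1, h2⟩)
      · exact ⟨haP, fun h => h.1 rfl⟩
      · exact ⟨h1, fun h => h2 h.2⟩
  have hna : a ∉ P \ S := by simp [haS]
  have c1 : cut P R (S.erase a) = ((S.erase a).filter (fun y => R a y)).card +
      ∑ x ∈ P \ S, ((S.erase a).filter (fun y => R x y)).card := by
    rw [cut_eq', hsd, sum_insert hna]
  have c2 : cut P R S = ∑ y ∈ S.erase a, ((P \ S).filter (fun x => R x y)).card +
      ((P \ S).filter (fun x => R x a)).card := by
    rw [cut_eq, ← sum_erase_add _ _ haS]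
  have c3 : ∑ x ∈ P \ S, ((S.erase a).filter (fun y => R x y)).card =
      ∑ y ∈ S.erase a, ((P \ S).filter (fun x => R x y)).card := by
    simp only [card_filter]
    exact sum_comm
  have d1 : ((S.erase a).filter (fun y => R a y)).card ≤
      {p : ℝ × ℝ | p ∈ P ∧ R a p ∧ α * p.1 + β * p.2 < α * a.1 + β * a.2}.ncard := by
    apply le_ncard
    intro y hy
    rw [mem_filter, mem_erase] at hy
    refine ⟨hS hy.1.2, hy.2, lt_of_le_of_ne (hmax y hy.1.2) (fun h => hy.1.1 ?_)⟩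
    exact hinj y (hS hy.1.2) a haP h
  have d2 : {p : ℝ × ℝ | p ∈ P ∧ R a p ∧ α * a.1 + β * a.2 < α * p.1 + β * p.2}.ncard ≤
      ((P \ S).filter (fun x => R x a)).card := by
    apply ncard_le
    intro y hyP hy
    rw [mem_filter, Finset.mem_sdiff]
    exact ⟨⟨hyP, fun h => absurd (hmax y h) (not_le.mpr hy.2)⟩, hsym _ _ hy.1⟩
  rw [c1, c2, c3]
  omega

theorem cut_le (hsym : ∀ x y, R x y → R y x) (hN : Node P R t) {B : Finset (ℝ × ℝ)}
    (hB : B ⊆ P) (hcl : ∀ p ∈ P, p ∈ convexHull ℝ (B : Set (ℝ × ℝ)) → p ∈ B) :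
    cut P R B ≤ t * (P \ B).card := by
  have key : ∀ m : ℕ, ∀ S : Finset (ℝ × ℝ), B ⊆ S → S ⊆ P → (S \ B).card = m →
      cut P R B ≤ cut P R S + t * m := by
    intro m
    induction m with
    | zero =>
      intro S h1 h2 h3
      have : S = B := by
        apply Subset.antisymm _ h1
        rw [card_eq_zero, sdiff_eq_empty_iff_subset] at h3
        exact h3
      rw [this]
      omega
    | succ m ih =>
      intro S h1 h2 h3
      have hne : (S \ B).Nonempty := by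
        rw [← card_pos]; omega
      obtain ⟨a, ha⟩ := hne
      rw [Finset.mem_sdiff] at ha
      have hah : a ∉ convexHull ℝ (B : Set (ℝ × ℝ)) := fun h => ha.2 (hcl a (h2 ha.1) h)
      obtain ⟨α, β, hβ, hinj, hs⟩ := sep P B a hah
      obtain ⟨z, hz, hzmax⟩ := S.exists_max_image (fun p => α * p.1 + β * p.2) ⟨a, ha.1⟩
      have hzB : z ∉ B := by
        intro h
        have h1 := hs z h
        have h2 := hzmax a ha.1
        linarith
      have h4 : (S.erase z \ B).card = m := by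
        rw [erase_sdiff_comm, card_erase_of_mem (by simp [hz, hzB]), h3]
        omega
      have h5 := ih (S.erase z) (by
        intro b hb
        rw [mem_erase]
        exact ⟨fun h => hzB (h ▸ hb), h1 hb⟩) ((erase_subset _ _).trans h2) h4
      have h6 := cut_step hsym hN h2 hz hβ hinj hzmax
      have : t * (m + 1) = t * m + t := by ring
      omega
  have h1 := key (P \ B).card P hB (Subset.refl _) rfl
  have h2 : cut P R P = 0 := by
    unfold cut
    simp
  omega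

/-- degree sum over a subset in convex position -/
theorem degree_sum (hsym : ∀ x y, R x y → R y x) (hirr : ∀ x, ¬ R x x) (hN : Node P R t)
    {Q : Finset (ℝ × ℝ)} (hQP : Q ⊆ P) (hQ : ConvexPosition Q) :
    ∑ q ∈ Q, (P.filter (fun p => R q p)).card ≤
      t * (Q.card + 2 * {p : ℝ × ℝ | p ∈ P ∧ p ∉ convexHull ℝ (Q : Set (ℝ × ℝ))}.ncard) := by
  set B : Finset (ℝ × ℝ) := P.filter (fun p => p ∈ convexHull ℝ (Q : Set (ℝ × ℝ))) with hB
  have hBP : B ⊆ P := filter_subset _ _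
  have hQB : Q ⊆ B := by
    intro q hq
    rw [hB, mem_filter]
    exact ⟨hQP hq, subset_convexHull ℝ _ hq⟩
  have hcl : ∀ p ∈ P, p ∈ convexHull ℝ (B : Set (ℝ × ℝ)) → p ∈ B := by
    intro p hp h
    rw [hB, mem_filter]
    refine ⟨hp, ?_⟩
    have : convexHull ℝ (B : Set (ℝ × ℝ)) ⊆ convexHull ℝ (Q : Set (ℝ × ℝ)) := by
      apply convexHull_min _ (convex_convexHull ℝ _)
      intro x hx
      rw [hB, mem_coe, mem_filter] at hx
      exact hx.2
    exact this h
  have hcut := cut_le hsym hN hBP hcl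
  have hdeg : ∀ q ∈ Q, (P.filter (fun p => R q p)).card ≤
      2 * ((P \ B).filter (fun x => R x q)).card + t := by
    intro q hq
    have hqP := hQP hq
    have hset : {p : ℝ × ℝ | p ∈ Q ∧ p ≠ q} = ((Q.erase q : Finset (ℝ × ℝ)) : Set (ℝ × ℝ)) := by
      ext p
      simp [and_comm]
    have hq' := hQ q hq
    rw [hset] at hq'
    obtain ⟨α, β, hβ, hinj, hs⟩ := sep P (Q.erase q) q hq'
    have hnode := hN q hqP α β hβ hinj
    have hsplit : (P.filter (fun p => R q p)).card ≤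
        {p : ℝ × ℝ | p ∈ P ∧ R q p ∧ α * p.1 + β * p.2 < α * q.1 + β * q.2}.ncard +
        {p : ℝ × ℝ | p ∈ P ∧ R q p ∧ α * q.1 + β * q.2 < α * p.1 + β * p.2}.ncard := by
      rw [← Set.ncard_coe_finset]
      refine le_trans (Set.ncard_le_ncard ?_ ((fin_sub _).union (fin_sub _)))
        (Set.ncard_union_le _ _)
      intro p hp
      rw [mem_coe, mem_filter] at hp
      rcases lt_trichotomy (α * p.1 + β * p.2) (α * q.1 + β * q.2) with h | h | h
      · exact Or.inl ⟨hp.1, hp.2, h⟩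
      · have := hinj p hp.1 q hqP h
        subst this
        exact absurd hp.2 (hirr p)
      · exact Or.inr ⟨hp.1, hp.2, h⟩
    have hup : {p : ℝ × ℝ | p ∈ P ∧ R q p ∧ α * q.1 + β * q.2 < α * p.1 + β * p.2}.ncard ≤
        ((P \ B).filter (fun x => R x q)).card := by
      apply ncard_le
      intro p hpP hp
      rw [mem_filter, Finset.mem_sdiff]
      refine ⟨⟨hpP, ?_⟩, hsym _ _ hp.1⟩
      intro hpB
      rw [hB, mem_filter] at hpB
      have hconv : Convex ℝ {x : ℝ × ℝ | α * x.1 + β * x.2 ≤ α * q.1 + β * q.2} := by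
        intro x hx y hy a b ha hb hab
        simp only [Set.mem_ofPred_eq, Prod.fst_add, Prod.smul_fst, smul_eq_mul, Prod.snd_add,
          Prod.smul_snd] at hx hy ⊢
        have e : α * (a * x.1 + b * y.1) + β * (a * x.2 + b * y.2) =
            a * (α * x.1 + β * x.2) + b * (α * y.1 + β * y.2) := by ring
        rw [e]
        calc a * (α * x.1 + β * x.2) + b * (α * y.1 + β * y.2)
            ≤ a * (α * q.1 + β * q.2) + b * (α * q.1 + β * q.2) := by gcongr
          _ = α * q.1 + β * q.2 := by rw [← add_mul, hab, one_mul]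
      have hsub : (Q : Set (ℝ × ℝ)) ⊆ {x : ℝ × ℝ | α * x.1 + β * x.2 ≤ α * q.1 + β * q.2} := by
        intro x hx
        by_cases hxq : x = q
        · subst hxq; exact le_refl (α * x.1 + β * x.2)
        · exact (hs x (mem_erase.mpr ⟨hxq, hx⟩)).le
      have := convexHull_min hsub hconv hpB.2
      rw [Set.mem_ofPred_eq] at this
      linarith [hp.2]
    omega
  have hsum : ∑ q ∈ Q, (P.filter (fun p => R q p)).card ≤
      2 * cut P R B + t * Q.card := by
    calc ∑ q ∈ Q, (P.filter (fun p => R q p)).card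
        ≤ ∑ q ∈ Q, (2 * ((P \ B).filter (fun x => R x q)).card + t) := sum_le_sum hdeg
      _ = 2 * ∑ q ∈ Q, ((P \ B).filter (fun x => R x q)).card + t * Q.card := by
          rw [sum_add_distrib, ← mul_sum, sum_const, smul_eq_mul, mul_comm t]
      _ ≤ 2 * cut P R B + t * Q.card := by
          have : ∑ q ∈ Q, ((P \ B).filter (fun x => R x q)).card ≤ cut P R B := by
            rw [cut_eq]
            exact sum_le_sum_of_subset hQB
          omega
  have hcard : (P \ B).card ≤ {p : ℝ × ℝ | p ∈ P ∧ p ∉ convexHull ℝ (Q : Set (ℝ × ℝ))}.ncard := by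
    apply le_ncard
    intro p hp
    rw [Finset.mem_sdiff, hB, mem_filter] at hp
    exact ⟨hp.1, fun h => hp.2 ⟨hp.1, h⟩⟩
  have : t * (P \ B).card ≤ t * {p : ℝ × ℝ | p ∈ P ∧ p ∉ convexHull ℝ (Q : Set (ℝ × ℝ))}.ncard :=
    Nat.mul_le_mul_left _ hcard
  have e : t * (Q.card + 2 * {p : ℝ × ℝ | p ∈ P ∧ p ∉ convexHull ℝ (Q : Set (ℝ × ℝ))}.ncard) =
      t * Q.card + 2 * (t * {p : ℝ × ℝ | p ∈ P ∧ p ∉ convexHull ℝ (Q : Set (ℝ × ℝ))}.ncard) := by
    ring
  rw [e]
  omega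

/-- abstract theorem: a set covered by `m` subsets in convex position -/
theorem total' (hsym : ∀ x y, R x y → R y x) (hirr : ∀ x, ¬ R x x) (hN : Node P R t)
    {m : ℕ} (Q : Fin m → Finset (ℝ × ℝ)) (hQP : ∀ i, Q i ⊆ P) (hcov : ∀ p ∈ P, ∃ i, p ∈ Q i)
    (hQ : ∀ i, ConvexPosition (Q i)) :
    ∑ q ∈ P, (P.filter (fun p => R q p)).card ≤
      t * ∑ i, ((Q i).card +
        2 * {p : ℝ × ℝ | p ∈ P ∧ p ∉ convexHull ℝ (Q i : Set (ℝ × ℝ))}.ncard) := by
  have h1 : ∑ q ∈ P, ((P.filter (fun p => R q p)).card) ≤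
      ∑ i : Fin m, ∑ q ∈ Q i, ((P.filter (fun p => R q p)).card) := by
    have e1 : ∀ i : Fin m, ∑ q ∈ Q i, ((P.filter (fun p => R q p)).card) =
        ∑ q ∈ P, if q ∈ Q i then ((P.filter (fun p => R q p)).card) else 0 := by
      intro i
      rw [← sum_filter]
      congr 1
      ext q
      rw [mem_filter]
      exact ⟨fun h => ⟨hQP i h, h⟩, fun h => h.2⟩
    simp only [e1]
    rw [sum_comm]
    apply sum_le_sum
    intro q hq
    obtain ⟨i, hi⟩ := hcov q hq
    have := single_le_sum (f := fun i : Fin m =>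
      if q ∈ Q i then ((P.filter (fun p => R q p)).card) else 0)
      (fun _ _ => Nat.zero_le _) (mem_univ i)
    simpa only [if_pos hi] using this
  refine h1.trans ?_
  rw [mul_sum]
  exact sum_le_sum (fun i _ => degree_sum hsym hirr hN (hQP i) (hQ i))

theorem sum_bound {m : ℕ} (Q : Fin m → Finset (ℝ × ℝ)) (hQP : ∀ i, Q i ⊆ P)
    (hcov : ∀ p ∈ P, ∃ i, p ∈ Q i) :
    ∑ i, ((Q i).card + 2 * {p : ℝ × ℝ | p ∈ P ∧ p ∉ convexHull ℝ (Q i : Set (ℝ × ℝ))}.ncard) +
      P.card ≤ 2 * m * P.card := by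
  have h1 : P.card ≤ ∑ i, (Q i).card := by
    refine le_trans (card_le_card ?_) (card_biUnion_le (s := univ) (t := Q))
    intro p hp
    obtain ⟨i, hi⟩ := hcov p hp
    exact mem_biUnion.mpr ⟨i, mem_univ i, hi⟩
  have h2 : ∀ i, (Q i).card +
      2 * {p : ℝ × ℝ | p ∈ P ∧ p ∉ convexHull ℝ (Q i : Set (ℝ × ℝ))}.ncard + (Q i).card ≤
      2 * P.card := by
    intro i
    have : {p : ℝ × ℝ | p ∈ P ∧ p ∉ convexHull ℝ (Q i : Set (ℝ × ℝ))}.ncard ≤ (P \ Q i).card := by
      apply ncard_le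
      intro p hp h
      rw [Finset.mem_sdiff]
      exact ⟨hp, fun h' => h (subset_convexHull ℝ _ h')⟩
    have h3 := card_sdiff_add_card_eq_card (hQP i)
    omega
  have h3 : ∑ i : Fin m, ((Q i).card +
      2 * {p : ℝ × ℝ | p ∈ P ∧ p ∉ convexHull ℝ (Q i : Set (ℝ × ℝ))}.ncard + (Q i).card) ≤
      ∑ _i : Fin m, 2 * P.card := sum_le_sum (fun i _ => h2 i)
  rw [sum_add_distrib] at h3
  simp only [sum_const, card_univ, Fintype.card_fin, smul_eq_mul] at h3
  have e : m * (2 * P.card) = 2 * m * P.card := by ring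
  omega

theorem total (hsym : ∀ x y, R x y → R y x) (hirr : ∀ x, ¬ R x x) (hN : Node P R t)
    {m : ℕ} (Q : Fin m → Finset (ℝ × ℝ)) (hQP : ∀ i, Q i ⊆ P) (hcov : ∀ p ∈ P, ∃ i, p ∈ Q i)
    (hQ : ∀ i, ConvexPosition (Q i)) :
    ∑ q ∈ P, (P.filter (fun p => R q p)).card + t * P.card ≤ 2 * t * m * P.card := by
  have h1 := total' hsym hirr hN Q hQP hcov hQ
  have h2 := Nat.mul_le_mul_left t (sum_bound Q hQP hcov)
  rw [mul_add] at h2
  have e : t * (2 * m * P.card) = 2 * t * m * P.card := by ring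
  omega

end

end Pool.Agent.H268R2.HL
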