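import Pool.Agent.H268R2.HL.Alt
import Pool.Agent.H268R2.HL.Geo

/-! Halving lines of a union of `m` sets in convex position. -/

set_option autoImplicit false

namespace Pool.Agent.H268R2.HL

open Finset

/-- twice the signed area of the triangle `p q r` -/
def orient (p q r : ℝ × ℝ) : ℝ := (q.1 - p.1) * (r.2 - p.2) - (q.2 - p.2) * (r.1 - p.1)

/-- the line through `p` and `q` has exactly `h` points of `P` on each side -/
def RH (P : Finset (ℝ × ℝ)) (h : ℕ) (p q : ℝ × ℝ) : Prop :=
  p ≠ q ∧ {r : ℝ × ℝ | r ∈ P ∧ 0 < orient p q r}.ncard = h ∧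
    {r : ℝ × ℝ | r ∈ P ∧ orient p q r < 0}.ncard = h

theorem orient_swap (p q r : ℝ × ℝ) : orient q p r = -orient p q r := by
  unfold orient; ring

theorem RH_symm {P : Finset (ℝ × ℝ)} {h : ℕ} {p q : ℝ × ℝ} (H : RH P h p q) : RH P h q p := by
  obtain ⟨h1, h2, h3⟩ := H
  refine ⟨h1.symm, ?_, ?_⟩
  · simp only [orient_swap p q, Left.neg_pos_iff]; exact h3
  · simp only [orient_swap p q, Left.neg_neg_iff]; exact h2

theorem frac_lt_pp {x y x' y' : ℝ} (hy : 0 < y) (hy' : 0 < y') :
    x / y < x' / y' ↔ x * y' < x' * y := div_lt_div_iff₀ hy hy'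

theorem frac_lt_nn {x y x' y' : ℝ} (hy : y < 0) (hy' : y' < 0) :
    x / y < x' / y' ↔ x * y' < x' * y := by
  rw [← neg_div_neg_eq x y, ← neg_div_neg_eq x' y', div_lt_div_iff₀ (by linarith) (by linarith)]
  constructor <;> intro h <;> linarith

theorem frac_lt_np {x y x' y' : ℝ} (hy : y < 0) (hy' : 0 < y') :
    x / y < x' / y' ↔ x' * y < x * y' := by
  rw [← neg_div_neg_eq x y, div_lt_div_iff₀ (by linarith) hy']
  constructor <;> intro h <;> linarith

theorem frac_lt_pn {x y x' y' : ℝ} (hy : 0 < y) (hy' : y' < 0) :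
    x / y < x' / y' ↔ x' * y < x * y' := by
  rw [← neg_div_neg_eq x' y', div_lt_div_iff₀ hy (by linarith)]
  constructor <;> intro h <;> linarith

section
open Classical

theorem node_half {P : Finset (ℝ × ℝ)} {h : ℕ} (hcard : P.card = 2 * h + 2)
    (hGP : ∀ p ∈ P, ∀ q ∈ P, ∀ r ∈ P, p ≠ q → p ≠ r → q ≠ r → orient p q r ≠ 0) :
    Node P (RH P h) 1 := by
  intro q hq α β hβ hinj
  set I := P.erase q with hI
  set Y : ℝ × ℝ → ℝ := fun p => α * (p.1 - q.1) + β * (p.2 - q.2) with hY
  set X : ℝ × ℝ → ℝ := fun p => -β * (p.1 - q.1) + α * (p.2 - q.2) with hX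
  set f : ℝ × ℝ → ℝ := fun p => X p / Y p with hf
  set U : ℝ × ℝ → Prop := fun p => 0 < Y p with hU
  have hD : 0 < α ^ 2 + β ^ 2 := by positivity
  have hid : ∀ i r, (α ^ 2 + β ^ 2) * orient q i r = X r * Y i - X i * Y r := by
    intro i r
    simp only [hX, hY, orient]
    ring
  have hY0 : ∀ p ∈ I, Y p ≠ 0 := by
    intro p hp h0
    rw [hI, mem_erase] at hp
    apply hp.1
    apply hinj p hp.2 q hq
    simp only [hY] at h0
    linarith
  have hfinj : Set.InjOn f I := by
    intro i hi j hj hij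
    by_contra hne
    rw [mem_coe] at hi hj
    have h1 := hY0 i hi
    have h2 := hY0 j hj
    simp only [hf] at hij
    rw [div_eq_div_iff h1 h2] at hij
    have h3 := hid i j
    have h4 : orient q i j = 0 := by
      have : (α ^ 2 + β ^ 2) * orient q i j = 0 := by rw [h3]; linarith
      rcases mul_eq_zero.mp this with h | h
      · exact absurd h hD.ne'
      · exact h
    rw [hI, mem_erase] at hi hj
    exact hGP q hq i hi.2 j hj.2 (Ne.symm hi.1) (Ne.symm hj.1) hne h4
  have hpos : ∀ i r, 0 < orient q i r ↔ X i * Y r < X r * Y i := by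
    intro i r
    have := hid i r
    constructor
    · intro h
      have := mul_pos hD h
      linarith
    · intro h
      by_contra hc
      push Not at hc
      have := mul_nonpos_of_nonneg_of_nonpos hD.le hc
      linarith
  have hneg : ∀ i r, orient q i r < 0 ↔ X r * Y i < X i * Y r := by
    intro i r
    have := hid i r
    constructor
    · intro h
      have := mul_neg_of_pos_of_neg hD h
      linarith
    · intro h
      by_contra hc
      push Not at hc
      have := mul_nonneg hD.le hc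
      linarith
  -- the counting function
  have hgU : ∀ i ∈ I, U i → gg f U I i = {r : ℝ × ℝ | r ∈ P ∧ orient q i r < 0}.ncard := by
    intro i hi hUi
    have hYi : 0 < Y i := hUi
    rw [gg_def, ← Set.ncard_coe_finset]
    congr 1
    ext r
    rw [mem_coe, mem_filter, Set.mem_ofPred_eq]
    constructor
    · rintro ⟨hr, h⟩
      refine ⟨(mem_erase.mp hr).2, ?_⟩
      rw [hneg]
      rcases h with ⟨hUr, h⟩ | ⟨hUr, h⟩
      · exact (frac_lt_pp (show 0 < Y r from hUr) hYi).mp h
      · have hYr : Y r < 0 := lt_of_le_of_ne (not_lt.mp hUr) (hY0 r hr)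
        exact (frac_lt_pn hYi hYr).mp h
    · rintro ⟨hrP, h⟩
      have hrq : r ≠ q := by
        rintro rfl
        unfold orient at h
        simp at h
      have hr : r ∈ I := mem_erase.mpr ⟨hrq, hrP⟩
      refine ⟨hr, ?_⟩
      rw [hneg] at h
      rcases lt_or_gt_of_ne (hY0 r hr) with hYr | hYr
      · exact Or.inr ⟨not_lt.mpr hYr.le, (frac_lt_pn hYi hYr).mpr h⟩
      · exact Or.inl ⟨hYr, (frac_lt_pp hYr hYi).mpr h⟩
  have hgD : ∀ i ∈ I, ¬ U i → gg f U I i = {r : ℝ × ℝ | r ∈ P ∧ 0 < orient q i r}.ncard := by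
    intro i hi hUi
    have hYi : Y i < 0 := lt_of_le_of_ne (not_lt.mp hUi) (hY0 i hi)
    rw [gg_def, ← Set.ncard_coe_finset]
    congr 1
    ext r
    rw [mem_coe, mem_filter, Set.mem_ofPred_eq]
    constructor
    · rintro ⟨hr, h⟩
      refine ⟨(mem_erase.mp hr).2, ?_⟩
      rw [hpos]
      rcases h with ⟨hUr, h⟩ | ⟨hUr, h⟩
      · exact (frac_lt_pn (show 0 < Y r from hUr) hYi).mp h
      · have hYr : Y r < 0 := lt_of_le_of_ne (not_lt.mp hUr) (hY0 r hr)
        exact (frac_lt_nn hYi hYr).mp h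
    · rintro ⟨hrP, h⟩
      have hrq : r ≠ q := by
        rintro rfl
        unfold orient at h
        simp at h
      have hr : r ∈ I := mem_erase.mpr ⟨hrq, hrP⟩
      refine ⟨hr, ?_⟩
      rw [hpos] at h
      rcases lt_or_gt_of_ne (hY0 r hr) with hYr | hYr
      · exact Or.inr ⟨not_lt.mpr hYr.le, (frac_lt_nn hYi hYr).mpr h⟩
      · exact Or.inl ⟨hYr, (frac_lt_pn hYr hYi).mpr h⟩
  have hsum : ∀ i ∈ I, {r : ℝ × ℝ | r ∈ P ∧ 0 < orient q i r}.ncard +
      {r : ℝ × ℝ | r ∈ P ∧ orient q i r < 0}.ncard = 2 * h := by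
    intro i hi
    rw [hI, mem_erase] at hi
    have e : {r : ℝ × ℝ | r ∈ P ∧ 0 < orient q i r} ∪ {r : ℝ × ℝ | r ∈ P ∧ orient q i r < 0} =
        (((P.erase q).erase i : Finset (ℝ × ℝ)) : Set (ℝ × ℝ)) := by
      ext r
      simp only [Set.mem_union, Set.mem_ofPred_eq, coe_erase, Set.mem_sdiff, mem_coe,
        Set.mem_singleton_iff]
      constructor
      · rintro (⟨h1, h2⟩ | ⟨h1, h2⟩)
        · refine ⟨⟨h1, ?_⟩, ?_⟩ <;> rintro rfl <;> unfold orient at h2 <;> ring_nf at h2 <;> simp at h2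
        · refine ⟨⟨h1, ?_⟩, ?_⟩ <;> rintro rfl <;> unfold orient at h2 <;> ring_nf at h2 <;> simp at h2
      · rintro ⟨⟨h1, h2⟩, h3⟩
        rcases lt_or_gt_of_ne (hGP q hq i hi.2 r h1 (Ne.symm hi.1) (Ne.symm h2) (Ne.symm h3))
          with h | h
        · exact Or.inr ⟨h1, h⟩
        · exact Or.inl ⟨h1, h⟩
    rw [← Set.ncard_union_eq ?_ (fin_sub _) (fin_sub _), e, Set.ncard_coe_finset,
      card_erase_of_mem (by simp [hi.1, hi.2]), card_erase_of_mem hq, hcard]
    · omega
    · rw [Set.disjoint_left]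
      rintro r ⟨_, h1⟩ ⟨_, h2⟩
      exact lt_asymm h1 h2
  have halt := (alt_le f U I hfinj h).1
  have hYφ : ∀ p, Y p = (α * p.1 + β * p.2) - (α * q.1 + β * q.2) := by
    intro p
    simp only [hY]
    ring
  have c1 : {p : ℝ × ℝ | p ∈ P ∧ RH P h q p ∧ α * p.1 + β * p.2 < α * q.1 + β * q.2}.ncard ≤
      (I.filter (fun i => ¬ U i ∧ gg f U I i = h)).card := by
    apply ncard_le
    rintro p hpP ⟨hR, hlt⟩
    have hpI : p ∈ I := mem_erase.mpr ⟨Ne.symm hR.1, hpP⟩
    have hUp : ¬ U p := by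
      simp only [hU, hYφ]
      linarith
    rw [mem_filter]
    exact ⟨hpI, hUp, by rw [hgD p hpI hUp]; exact hR.2.1⟩
  have c2 : (I.filter (fun i => U i ∧ gg f U I i = h)).card ≤
      {p : ℝ × ℝ | p ∈ P ∧ RH P h q p ∧ α * q.1 + β * q.2 < α * p.1 + β * p.2}.ncard := by
    apply le_ncard
    intro p hp
    rw [mem_filter] at hp
    obtain ⟨hpI, hUp, hg⟩ := hp
    have hp' := mem_erase.mp hpI
    rw [hgU p hpI hUp] at hg
    have := hsum p hpI
    refine ⟨hp'.2, ⟨Ne.symm hp'.1, by omega, hg⟩, ?_⟩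
    have : 0 < Y p := hUp
    rw [hYφ] at this
    linarith
  omega

end

theorem line_param {a b c : ℝ} (hab : a ≠ 0 ∨ b ≠ 0) {p q : ℝ × ℝ} (hpq : p ≠ q)
    (hp : p ∈ Line a b c) (hq : q ∈ Line a b c) :
    ∃ l : ℝ, l ≠ 0 ∧ ∀ r : ℝ × ℝ, a * r.1 + b * r.2 - c = l * orient p q r := by
  have hp' : a * p.1 + b * p.2 = c := hp
  have hq' : a * q.1 + b * q.2 = c := hq
  have hdet : a * (q.1 - p.1) + b * (q.2 - p.2) = 0 := by linarith
  by_cases h2 : q.2 - p.2 = 0
  · have h1 : q.1 - p.1 ≠ 0 := by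
      intro h1
      apply hpq
      exact Prod.ext (by linarith) (by linarith)
    have ha : a = 0 := by
      rw [h2, mul_zero, add_zero] at hdet
      exact (mul_eq_zero.mp hdet).resolve_right h1
    have hb : b ≠ 0 := by
      rcases hab with h | h
      · exact absurd ha h
      · exact h
    refine ⟨b / (q.1 - p.1), div_ne_zero hb h1, ?_⟩
    intro r
    unfold orient
    rw [h2, ha]
    field_simp
    rw [← hp', ha]
    ring
  · have hb : b * (q.2 - p.2) = -a * (q.1 - p.1) := by linarith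
    have ha : a ≠ 0 := by
      intro h
      rw [h] at hb
      simp only [neg_zero, zero_mul] at hb
      have := (mul_eq_zero.mp hb).resolve_right h2
      rcases hab with h' | h'
      · exact h' h
      · exact h' this
    refine ⟨-a / (q.2 - p.2), div_ne_zero (neg_ne_zero.mpr ha) h2, ?_⟩
    intro r
    unfold orient
    field_simp
    rw [← hp']
    linear_combination (r.2 - p.2) * hb

theorem gp_orient {P : Finset (ℝ × ℝ)} (h : GeneralPosition P) :
    ∀ p ∈ P, ∀ q ∈ P, ∀ r ∈ P, p ≠ q → p ≠ r → q ≠ r → orient p q r ≠ 0 := by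
  intro p hp q hq r hr hpq hpr hqr h0
  have hv : q.2 - p.2 ≠ 0 ∨ -(q.1 - p.1) ≠ 0 := by
    by_contra hc
    push Not at hc
    apply hpq
    exact Prod.ext (by linarith [hc.2]) (by linarith [hc.1])
  apply h (q.2 - p.2) (-(q.1 - p.1)) ((q.2 - p.2) * p.1 + -(q.1 - p.1) * p.2) hv p hp q hq r hr
    hpq hpr hqr
  refine ⟨rfl, ?_, ?_⟩
  · show (q.2 - p.2) * q.1 + -(q.1 - p.1) * q.2 = _
    ring
  · show (q.2 - p.2) * r.1 + -(q.1 - p.1) * r.2 = _
    unfold orient at h0
    linear_combination -h0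

/-- every bisector comes from a halving pair -/
theorem bisector_pair {P : Finset (ℝ × ℝ)} {L : Set (ℝ × ℝ)} (h : IsBisector P L) :
    ∃ p ∈ P, ∃ q ∈ P, RH P (P.card / 2 - 1) p q ∧ L = {r | orient p q r = 0} := by
  obtain ⟨a, b, c, hab, rfl, ⟨p, hp, q, hq, hpq, hpL, hqL⟩, h1, h2⟩ := h
  obtain ⟨l, hl, hlin⟩ := line_param hab hpq hpL hqL
  have hL : Line a b c = {r | orient p q r = 0} := by
    ext r
    rw [Set.mem_ofPred_eq]
    show a * r.1 + b * r.2 = c ↔ _
    have := hlin r
    constructor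
    · intro h
      rw [h, sub_self] at this
      exact (mul_eq_zero.mp this.symm).resolve_left hl
    · intro h
      rw [h, mul_zero] at this
      linarith
  refine ⟨p, hp, q, hq, ?_, hL⟩
  rcases lt_or_gt_of_ne hl with hneg | hpos
  · have e1 : ∀ r : ℝ × ℝ, a * r.1 + b * r.2 < c ↔ 0 < orient p q r := by
      intro r
      have := hlin r
      constructor
      · intro h
        by_contra hc
        push Not at hc
        have := mul_nonneg_of_nonpos_of_nonpos hneg.le hc
        linarith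
      · intro h
        have := mul_neg_of_neg_of_pos hneg h
        linarith
    have e2 : ∀ r : ℝ × ℝ, c < a * r.1 + b * r.2 ↔ orient p q r < 0 := by
      intro r
      have := hlin r
      constructor
      · intro h
        by_contra hc
        push Not at hc
        have := mul_nonpos_of_nonpos_of_nonneg hneg.le hc
        linarith
      · intro h
        have := mul_pos_of_neg_of_neg hneg h
        linarith
    simp only [e1] at h1
    simp only [e2] at h2
    exact ⟨hpq, h1, h2⟩
  · have e1 : ∀ r : ℝ × ℝ, a * r.1 + b * r.2 < c ↔ orient p q r < 0 := by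
      intro r
      have := hlin r
      constructor
      · intro h
        by_contra hc
        push Not at hc
        have := mul_nonneg hpos.le hc
        linarith
      · intro h
        have := mul_neg_of_pos_of_neg hpos h
        linarith
    have e2 : ∀ r : ℝ × ℝ, c < a * r.1 + b * r.2 ↔ 0 < orient p q r := by
      intro r
      have := hlin r
      constructor
      · intro h
        by_contra hc
        push Not at hc
        have := mul_nonpos_of_nonneg_of_nonpos hpos.le hc
        linarith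
      · intro h
        have := mul_pos hpos h
        linarith
    simp only [e1] at h1
    simp only [e2] at h2
    exact ⟨hpq, h2, h1⟩

section
open Classical

theorem bisector_count (P : Finset (ℝ × ℝ)) :
    2 * {L | IsBisector P L}.ncard ≤
      ∑ q ∈ P, (P.filter (fun p => RH P (P.card / 2 - 1) q p)).card := by
  set h := P.card / 2 - 1 with hh
  set S := (P ×ˢ P).filter (fun z => RH P h z.1 z.2) with hS
  set g : (ℝ × ℝ) × (ℝ × ℝ) → Set (ℝ × ℝ) := fun z => {r | orient z.1 z.2 r = 0} with hg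
  have hSc : S.card = ∑ q ∈ P, (P.filter (fun p => RH P h q p)).card := by
    rw [hS, card_filter, sum_product]
    simp only [card_filter]
  have h1 : 2 * (S.image g).card ≤ S.card := by
    rw [card_eq_sum_card_image g S]
    calc 2 * (S.image g).card = ∑ _b ∈ S.image g, 2 := by
          rw [sum_const, smul_eq_mul, mul_comm]
      _ ≤ _ := by
          apply sum_le_sum
          intro b hb
          obtain ⟨z, hz, rfl⟩ := mem_image.mp hb
          rw [hS, mem_filter, mem_product] at hz
          have hsub : ({z, (z.2, z.1)} : Finset ((ℝ × ℝ) × (ℝ × ℝ))) ⊆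
              S.filter (fun x => g x = g z) := by
            intro w hw
            rw [mem_insert, mem_singleton] at hw
            rw [mem_filter, hS, mem_filter, mem_product]
            rcases hw with rfl | rfl
            · exact ⟨hz, rfl⟩
            · refine ⟨⟨⟨hz.1.2, hz.1.1⟩, RH_symm hz.2⟩, ?_⟩
              simp only [hg, orient_swap z.1 z.2, neg_eq_zero]
          have hne : z ≠ (z.2, z.1) := by
            intro h
            apply hz.2.1
            exact congrArg Prod.fst h
          calc 2 = ({z, (z.2, z.1)} : Finset ((ℝ × ℝ) × (ℝ × ℝ))).card := (card_pair hne).symm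
            _ ≤ _ := card_le_card hsub
  have h2 : {L | IsBisector P L}.ncard ≤ (S.image g).card := by
    rw [← Set.ncard_coe_finset]
    apply Set.ncard_le_ncard _ (finite_toSet _)
    intro L hL
    obtain ⟨p, hp, q, hq, hR, rfl⟩ := bisector_pair hL
    rw [mem_coe, mem_image]
    exact ⟨(p, q), by rw [hS, mem_filter, mem_product]; exact ⟨⟨hp, hq⟩, hR⟩, rfl⟩
  omega

end

theorem halving_main (P : Finset (ℝ × ℝ)) (hP : GeneralPosition P) (heven : Even P.card)
    (m : ℕ) (Q : Fin m → Finset (ℝ × ℝ)) (hQ : ∀ i, ConvexPosition (Q i))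
    (hcov : ∀ p, p ∈ P ↔ ∃ i, p ∈ Q i) :
    2 * {L | IsBisector P L}.ncard ≤ ∑ i, ((Q i).card +
      2 * {p : ℝ × ℝ | p ∈ P ∧ p ∉ convexHull ℝ (Q i : Set (ℝ × ℝ))}.ncard) ∧
    ∑ i, ((Q i).card +
      2 * {p : ℝ × ℝ | p ∈ P ∧ p ∉ convexHull ℝ (Q i : Set (ℝ × ℝ))}.ncard) ≤
      (2 * m - 1) * P.card := by
  classical
  have h1 := bisector_count P
  have hQP : ∀ i, Q i ⊆ P := fun i p hp => (hcov p).mpr ⟨i, hp⟩
  have hcov' : ∀ p ∈ P, ∃ i, p ∈ Q i := fun p hp => (hcov p).mp hp
  have hsb := sum_bound Q hQP hcov'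
  rcases Nat.eq_zero_or_pos P.card with h0 | hpos
  · have hPe : P = ∅ := card_eq_zero.mp h0
    have hz : ∑ q ∈ P, (P.filter (fun p => RH P (P.card / 2 - 1) q p)).card = 0 := by
      rw [hPe]; simp
    rw [h0, mul_zero] at hsb
    rw [h0, mul_zero]
    omega
  · obtain ⟨c, hc⟩ := heven
    have hcard : P.card = 2 * (P.card / 2 - 1) + 2 := by omega
    have hN := node_half hcard (gp_orient hP)
    have htot := total' (P := P) (t := 1) (fun x y => RH_symm) (fun x hx => hx.1 rfl) hN Q
      hQP hcov' hQ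
    rw [one_mul] at htot
    refine ⟨h1.trans htot, ?_⟩
    have hm : 1 ≤ m := by
      obtain ⟨p, hp⟩ := card_pos.mp hpos
      obtain ⟨i, _⟩ := (hcov p).mp hp
      exact Nat.one_le_iff_ne_zero.mpr (fun h => by subst h; exact i.elim0)
    obtain ⟨m', rfl⟩ : ∃ m', m = m' + 1 := ⟨m - 1, by omega⟩
    have e : 2 * (m' + 1) - 1 = 2 * m' + 1 := by omega
    rw [e]
    have e2 : 2 * (m' + 1) * P.card = (2 * m' + 1) * P.card + P.card := by ring
    rw [e2] at hsb
    omega

end Pool.Agent.H268R2.HL
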