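import Pool.Agent.H268R2.HL.Alt
import Pool.Agent.H268R2.HL.Geo

/-! Levels: node inequality for crossings with exactly `k` lines below. -/

set_option autoImplicit false

namespace Pool.Agent.H268R2.HL

open Finset

section
open Classical

theorem side {ι : Type*} (I : Finset ι) (s t : ι → ℝ) (ht0 : ∀ i ∈ I, t i ≠ 0)
    (hinj : ∀ i ∈ I, ∀ j ∈ I, s i ≠ 0 → s j ≠ 0 → -t i / s i = -t j / s j → i = j)
    (k : ℕ) (cnt : ι → ℕ)
    (hcnt : ∀ i ∈ I, s i ≠ 0 → 0 < -t i / s i →
      cnt i = (I.filter (fun j => s j * (-t i / s i) + t j < 0)).card) :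
    (I.filter (fun i => t i < 0 ∧ s i ≠ 0 ∧ 0 < -t i / s i ∧ cnt i = k)).card ≤
      (I.filter (fun i => 0 < t i ∧ s i ≠ 0 ∧ 0 < -t i / s i ∧ cnt i = k)).card + 1 ∧
    (I.filter (fun i => 0 < t i ∧ s i ≠ 0 ∧ 0 < -t i / s i ∧ cnt i = k)).card ≤
      (I.filter (fun i => t i < 0 ∧ s i ≠ 0 ∧ 0 < -t i / s i ∧ cnt i = k)).card + 1 := by
  set f : ι → ℝ := fun i => -t i / s i with hf
  set J := I.filter (fun i => s i ≠ 0 ∧ 0 < f i) with hJ
  set U : ι → Prop := fun i => 0 < t i with hU
  set c0 := (I.filter (fun j => t j < 0 ∧ ¬ (s j ≠ 0 ∧ 0 < f j))).card with hc0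
  have hcount : ∀ i ∈ J, cnt i = gg f U J i + c0 := by
    intro i hi
    rw [hJ, mem_filter] at hi
    rw [hcnt i hi.1 hi.2.1 hi.2.2, gg_def, hc0, ← card_union_of_disjoint]
    · congr 1
      ext j
      simp only [mem_filter, mem_union, hJ]
      have hr : 0 < f i := hi.2.2
      show j ∈ I ∧ s j * f i + t j < 0 ↔ _
      by_cases hsj : s j = 0
      · simp [hsj]
      · have ht : t j = -(s j * f j) := by
          simp only [hf]
          field_simp
        have e : s j * f i + t j = s j * (f i - f j) := by rw [ht]; ring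
        rw [e]
        constructor
        · rintro ⟨hjI, h⟩
          rcases lt_trichotomy (f j) 0 with h1 | h1 | h1
          · right
            refine ⟨hjI, ?_, fun h2 => absurd h2.2 (not_lt.mpr h1.le)⟩
            have h2 : 0 < f i - f j := by linarith
            have h3 : s j < 0 := by
              by_contra hc
              push Not at hc
              have := mul_nonneg hc h2.le
              linarith
            rw [ht]
            have := mul_pos_of_neg_of_neg h3 h1
            linarith
          · exfalso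
            rw [h1, mul_zero, neg_zero] at ht
            exact ht0 j hjI ht
          · left
            refine ⟨⟨hjI, hsj, h1⟩, ?_⟩
            rcases lt_or_gt_of_ne hsj with h3 | h3
            · left
              refine ⟨?_, ?_⟩
              · show 0 < t j
                rw [ht]
                have := mul_neg_of_neg_of_pos h3 h1
                linarith
              · by_contra hc
                push Not at hc
                have := mul_nonneg_of_nonpos_of_nonpos h3.le (sub_nonpos.mpr hc)
                linarith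
            · right
              refine ⟨?_, ?_⟩
              · show ¬ 0 < t j
                rw [ht]
                have := mul_pos h3 h1
                linarith
              · by_contra hc
                push Not at hc
                have := mul_nonneg h3.le (sub_nonneg.mpr hc)
                linarith
        · rintro (⟨⟨hjI, _, h1⟩, h | h⟩ | ⟨hjI, h1, h2⟩)
          · refine ⟨hjI, ?_⟩
            have h3 : 0 < t j := h.1
            rw [ht] at h3
            have h4 : s j < 0 := by
              by_contra hc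
              push Not at hc
              have := mul_nonneg hc h1.le
              linarith
            exact mul_neg_of_neg_of_pos h4 (sub_pos.mpr h.2)
          · refine ⟨hjI, ?_⟩
            have h3 : ¬ 0 < t j := h.1
            rw [ht] at h3
            have h4 : 0 < s j := by
              rcases lt_or_gt_of_ne hsj with h5 | h5
              · exfalso
                have := mul_neg_of_neg_of_pos h5 h1
                linarith
              · exact h5
            exact mul_neg_of_pos_of_neg h4 (sub_neg.mpr h.2)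
          · refine ⟨hjI, ?_⟩
            have h3 : f j < 0 := by
              rcases lt_trichotomy (f j) 0 with h4 | h4 | h4
              · exact h4
              · exfalso
                rw [h4, mul_zero, neg_zero] at ht
                exact ht0 j hjI ht
              · exact absurd ⟨hsj, h4⟩ h2
            have h5 : s j < 0 := by
              rw [ht] at h1
              by_contra hc
              push Not at hc
              have := mul_nonpos_of_nonneg_of_nonpos hc h3.le
              linarith
            exact mul_neg_of_neg_of_pos h5 (by linarith)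
    · rw [disjoint_left]
      intro j h1 h2
      rw [mem_filter, hJ, mem_filter] at h1
      rw [mem_filter] at h2
      exact h2.2.2 h1.1.2
  have hfinj : Set.InjOn f J := by
    intro i hi j hj hij
    rw [hJ, mem_coe, mem_filter] at hi hj
    exact hinj i hi.1 j hj.1 hi.2.1 hj.2.1 hij
  have hset1 : I.filter (fun i => t i < 0 ∧ s i ≠ 0 ∧ 0 < -t i / s i ∧ cnt i = k) =
      J.filter (fun i => ¬ U i ∧ gg f U J i + c0 = k) := by
    ext i
    simp only [mem_filter]
    constructor
    · rintro ⟨h1, h2, h3, h4, h5⟩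
      have hiJ : i ∈ J := by rw [hJ, mem_filter]; exact ⟨h1, h3, h4⟩
      exact ⟨hiJ, not_lt.mpr h2.le, by rw [← hcount i hiJ]; exact h5⟩
    · rintro ⟨hiJ, h2, h3⟩
      have hi := hiJ
      rw [hJ, mem_filter] at hi
      refine ⟨hi.1, lt_of_le_of_ne (not_lt.mp h2) (ht0 i hi.1), hi.2.1, hi.2.2, ?_⟩
      rw [hcount i hiJ]
      exact h3
  have hset2 : I.filter (fun i => 0 < t i ∧ s i ≠ 0 ∧ 0 < -t i / s i ∧ cnt i = k) =
      J.filter (fun i => U i ∧ gg f U J i + c0 = k) := by
    ext i
    simp only [mem_filter]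
    constructor
    · rintro ⟨h1, h2, h3, h4, h5⟩
      have hiJ : i ∈ J := by rw [hJ, mem_filter]; exact ⟨h1, h3, h4⟩
      exact ⟨hiJ, h2, by rw [← hcount i hiJ]; exact h5⟩
    · rintro ⟨hiJ, h2, h3⟩
      have hi := hiJ
      rw [hJ, mem_filter] at hi
      refine ⟨hi.1, h2, hi.2.1, hi.2.2, ?_⟩
      rw [hcount i hiJ]
      exact h3
  rw [hset1, hset2]
  by_cases hk : c0 ≤ k
  · have e : ∀ i, (gg f U J i + c0 = k) = (gg f U J i = k - c0) := by
      intro i
      apply propext
      omega
    simp only [e]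
    exact alt_le f U J hfinj (k - c0)
  · have e : ∀ i, (gg f U J i + c0 = k) = False := by
      intro i
      apply propext
      constructor
      · intro h; omega
      · exact False.elim
    simp [e]

/-- abscissa of the crossing of the lines with (slope, intercept) `p` and `q` -/
noncomputable def crx (p q : ℝ × ℝ) : ℝ := (q.2 - p.2) / (p.1 - q.1)

/-- height -/
def hgt (p : ℝ × ℝ) (x : ℝ) : ℝ := p.1 * x + p.2

/-- the lines `p` and `q` cross, with exactly `k` lines of `P` strictly below the crossing -/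
def RL (P : Finset (ℝ × ℝ)) (k : ℕ) (p q : ℝ × ℝ) : Prop :=
  p.1 ≠ q.1 ∧ {r : ℝ × ℝ | r ∈ P ∧ hgt r (crx p q) < hgt p (crx p q)}.ncard = k

theorem hgt_crx {p q : ℝ × ℝ} (h : p.1 ≠ q.1) : hgt q (crx p q) = hgt p (crx p q) := by
  have : p.1 - q.1 ≠ 0 := sub_ne_zero.mpr h
  unfold hgt crx
  field_simp
  ring

theorem crx_symm (p q : ℝ × ℝ) : crx p q = crx q p := by
  unfold crx
  rw [← neg_div_neg_eq]
  congr 1 <;> ring

theorem RL_symm {P : Finset (ℝ × ℝ)} {k : ℕ} {p q : ℝ × ℝ} (H : RL P k p q) : RL P k q p := by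
  obtain ⟨h1, h2⟩ := H
  refine ⟨h1.symm, ?_⟩
  rw [crx_symm q p, hgt_crx h1]
  exact h2

theorem node_level {P : Finset (ℝ × ℝ)} (k : ℕ)
    (hS : ∀ p ∈ P, ∀ q ∈ P, ∀ r ∈ P, p ≠ q → p ≠ r → q ≠ r →
      ¬ ∃ x, hgt p x = hgt q x ∧ hgt p x = hgt r x) :
    Node P (RL P k) 2 := by
  intro q hq α β hβ hinj
  set I := P.erase q with hI
  set x0 := α / β with hx0
  set s : ℝ × ℝ → ℝ := fun p => p.1 - q.1 with hs
  set t : ℝ × ℝ → ℝ := fun p => (p.1 - q.1) * x0 + (p.2 - q.2) with ht
  have hφ : ∀ p : ℝ × ℝ, (α * p.1 + β * p.2) - (α * q.1 + β * q.2) = β * t p := by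
    intro p
    simp only [ht, hx0]
    field_simp
    ring
  have ht0 : ∀ p ∈ I, t p ≠ 0 := by
    intro p hp h0
    rw [hI, mem_erase] at hp
    apply hp.1
    apply hinj p hp.2 q hq
    have := hφ p
    rw [h0, mul_zero] at this
    linarith
  set cnt : ℝ × ℝ → ℕ := fun p => {r : ℝ × ℝ | r ∈ P ∧ hgt r (crx q p) < hgt q (crx q p)}.ncard
    with hcnt
  have hcr : ∀ p : ℝ × ℝ, s p ≠ 0 → -t p / s p = crx q p - x0 := by
    intro p hp
    have h1 : p.1 - q.1 ≠ 0 := hp
    have h2 : q.1 - p.1 ≠ 0 := by
      intro h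
      apply h1
      linarith
    simp only [hs, ht, crx]
    rw [eq_sub_iff_add_eq, div_add' _ _ _ h1, div_eq_div_iff h1 h2]
    ring
  have hcnt' : ∀ p : ℝ × ℝ, cnt p =
      (I.filter (fun r => s r * (crx q p - x0) + t r < 0)).card := by
    intro p
    show {r : ℝ × ℝ | r ∈ P ∧ hgt r (crx q p) < hgt q (crx q p)}.ncard = _
    rw [← Set.ncard_coe_finset]
    congr 1
    ext r
    rw [Set.mem_ofPred_eq, mem_coe, mem_filter, hI, mem_erase]
    have e : s r * (crx q p - x0) + t r = hgt r (crx q p) - hgt q (crx q p) := by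
      simp only [hs, ht, hgt]
      ring
    rw [e]
    constructor
    · rintro ⟨h1, h2⟩
      refine ⟨⟨?_, h1⟩, by linarith⟩
      rintro rfl
      exact lt_irrefl _ h2
    · rintro ⟨⟨_, h1⟩, h2⟩
      exact ⟨h1, by linarith⟩
  have hroot : ∀ i ∈ I, ∀ j ∈ I, s i ≠ 0 → s j ≠ 0 → -t i / s i = -t j / s j → i = j := by
    intro i hi j hj hsi hsj h
    rw [hcr i hsi, hcr j hsj] at h
    have h' : crx q i = crx q j := by linarith
    rw [hI, mem_erase] at hi hj
    by_contra hne
    apply hS q hq i hi.2 j hj.2 (Ne.symm hi.1) (Ne.symm hj.1) hne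
    refine ⟨crx q i, (hgt_crx (fun h => hsi ?_)).symm, ?_⟩
    · simp only [hs]; linarith
    · rw [h']
      exact (hgt_crx (fun h => hsj (by simp only [hs]; linarith))).symm
  have hR := side I s t ht0 hroot k cnt (by
    intro i _ hsi _
    rw [hcnt' i, hcr i hsi])
  have hL := side I (fun p => -s p) t ht0 (by
    intro i hi j hj hsi hsj h
    have hsi' : s i ≠ 0 := fun h => hsi (by rw [h, neg_zero])
    have hsj' : s j ≠ 0 := fun h => hsj (by rw [h, neg_zero])
    apply hroot i hi j hj hsi' hsj'
    rw [neg_div_neg_eq, neg_div_neg_eq] at h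
    rw [neg_div, neg_div, h]) k cnt (by
    intro i _ hsi _
    have hsi' : s i ≠ 0 := fun h => hsi (by rw [h, neg_zero])
    rw [hcnt' i]
    congr 1
    apply filter_congr
    intro r _
    have e : -s r * (-t i / -s i) = s r * (crx q i - x0) := by
      rw [neg_div_neg_eq, ← hcr i hsi']
      rw [neg_div]
      ring
    rw [e])
  -- split of the two sides
  have hsplit : ∀ (T : ℝ × ℝ → Prop), {p : ℝ × ℝ | p ∈ P ∧ RL P k q p ∧ T p ∧ p ≠ q}.ncard =
      (I.filter (fun i => T i ∧ s i ≠ 0 ∧ 0 < -t i / s i ∧ cnt i = k)).card +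
      (I.filter (fun i => T i ∧ -s i ≠ 0 ∧ 0 < -t i / -s i ∧ cnt i = k)).card := by
    intro T
    rw [← card_union_of_disjoint, ← Set.ncard_coe_finset]
    · congr 1
      ext p
      rw [Set.mem_ofPred_eq, mem_coe, mem_union, mem_filter, mem_filter]
      constructor
      · rintro ⟨h1, ⟨h2, h3⟩, h4, h5⟩
        have hpI : p ∈ I := mem_erase.mpr ⟨h5, h1⟩
        have hsp : s p ≠ 0 := by
          simp only [hs]
          intro h
          exact h2 (by linarith)
        rcases lt_or_gt_of_ne (div_ne_zero (neg_ne_zero.mpr (ht0 p hpI)) hsp) with h | h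
        · right
          refine ⟨hpI, h4, neg_ne_zero.mpr hsp, ?_, h3⟩
          rw [neg_div_neg_eq]
          rw [neg_div] at h
          linarith
        · left
          exact ⟨hpI, h4, hsp, h, h3⟩
      · rintro (⟨h1, h2, h3, h4, h5⟩ | ⟨h1, h2, h3, h4, h5⟩)
        · have h1' := mem_erase.mp h1
          refine ⟨h1'.2, ⟨?_, h5⟩, h2, h1'.1⟩
          intro h
          apply h3
          simp only [hs]
          linarith
        · have h1' := mem_erase.mp h1
          refine ⟨h1'.2, ⟨?_, h5⟩, h2, h1'.1⟩
          intro h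
          apply h3
          simp only [hs]
          linarith
    · rw [disjoint_left]
      intro p h1 h2
      rw [mem_filter] at h1 h2
      have h3 := h1.2.2.2.1
      have h4 := h2.2.2.2.1
      rw [neg_div_neg_eq] at h4
      rw [neg_div] at h3
      linarith
  have hneg := hsplit (fun p => t p < 0)
  have hpos := hsplit (fun p => 0 < t p)
  have hne1 : ∀ p : ℝ × ℝ, t p < 0 → p ≠ q := by
    rintro p h rfl
    simp [ht] at h
  have hne2 : ∀ p : ℝ × ℝ, 0 < t p → p ≠ q := by
    rintro p h rfl
    simp [ht] at h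
  rcases lt_or_gt_of_ne hβ with hβ | hβ
  · have e1 : {p : ℝ × ℝ | p ∈ P ∧ RL P k q p ∧ α * p.1 + β * p.2 < α * q.1 + β * q.2} =
        {p : ℝ × ℝ | p ∈ P ∧ RL P k q p ∧ 0 < t p ∧ p ≠ q} := by
      ext p
      rw [Set.mem_ofPred_eq, Set.mem_ofPred_eq]
      have := hφ p
      constructor
      · rintro ⟨h1, h2, h3⟩
        have h4 : 0 < t p := by
          by_contra hc
          push Not at hc
          have := mul_nonneg_of_nonpos_of_nonpos hβ.le hc
          linarith
        exact ⟨h1, h2, h4, hne2 p h4⟩
      · rintro ⟨h1, h2, h3, _⟩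
        have := mul_neg_of_neg_of_pos hβ h3
        exact ⟨h1, h2, by linarith⟩
    have e2 : {p : ℝ × ℝ | p ∈ P ∧ RL P k q p ∧ α * q.1 + β * q.2 < α * p.1 + β * p.2} =
        {p : ℝ × ℝ | p ∈ P ∧ RL P k q p ∧ t p < 0 ∧ p ≠ q} := by
      ext p
      rw [Set.mem_ofPred_eq, Set.mem_ofPred_eq]
      have := hφ p
      constructor
      · rintro ⟨h1, h2, h3⟩
        have h4 : t p < 0 := by
          by_contra hc
          push Not at hc
          have := mul_nonpos_of_nonpos_of_nonneg hβ.le hc
          linarith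
        exact ⟨h1, h2, h4, hne1 p h4⟩
      · rintro ⟨h1, h2, h3, _⟩
        have := mul_pos_of_neg_of_neg hβ h3
        exact ⟨h1, h2, by linarith⟩
    rw [e1, e2, hneg, hpos]
    have := hR.2
    have := hL.2
    omega
  · have e1 : {p : ℝ × ℝ | p ∈ P ∧ RL P k q p ∧ α * p.1 + β * p.2 < α * q.1 + β * q.2} =
        {p : ℝ × ℝ | p ∈ P ∧ RL P k q p ∧ t p < 0 ∧ p ≠ q} := by
      ext p
      rw [Set.mem_ofPred_eq, Set.mem_ofPred_eq]
      have := hφ p
      constructor
      · rintro ⟨h1, h2, h3⟩
        have h4 : t p < 0 := by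
          by_contra hc
          push Not at hc
          have := mul_nonneg hβ.le hc
          linarith
        exact ⟨h1, h2, h4, hne1 p h4⟩
      · rintro ⟨h1, h2, h3, _⟩
        have := mul_neg_of_pos_of_neg hβ h3
        exact ⟨h1, h2, by linarith⟩
    have e2 : {p : ℝ × ℝ | p ∈ P ∧ RL P k q p ∧ α * q.1 + β * q.2 < α * p.1 + β * p.2} =
        {p : ℝ × ℝ | p ∈ P ∧ RL P k q p ∧ 0 < t p ∧ p ≠ q} := by
      ext p
      rw [Set.mem_ofPred_eq, Set.mem_ofPred_eq]
      have := hφ p
      constructor
      · rintro ⟨h1, h2, h3⟩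
        have h4 : 0 < t p := by
          by_contra hc
          push Not at hc
          have := mul_nonpos_of_nonneg_of_nonpos hβ.le hc
          linarith
        exact ⟨h1, h2, h4, hne2 p h4⟩
      · rintro ⟨h1, h2, h3, _⟩
        have := mul_pos hβ h3
        exact ⟨h1, h2, by linarith⟩
    rw [e1, e2, hneg, hpos]
    have := hR.1
    have := hL.1
    omega

end

end Pool.Agent.H268R2.HL
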