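import Mathlib

/-! Definitions: simple line arrangements, the `k`-level and its complexity, families of lines all
of whose members are on an envelope. -/

set_option autoImplicit false

namespace Pool.Agent.H268R2.HL

open Finset Filter
open scoped Topology

/-- height of line `l` (slope `a l`, intercept `B l`) above `x` -/
def ht {n : ℕ} (a B : Fin n → ℝ) (l : Fin n) (x : ℝ) : ℝ := a l * x + B l

/-- no two of the lines `y = a l * x + B l` coincide and no three of them pass through a common
point -/
def Simple {n : ℕ} (a B : Fin n → ℝ) : Prop :=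
  (∀ i j, i ≠ j → a i = a j → B i ≠ B j) ∧
    ∀ i j l, i ≠ j → i ≠ l → j ≠ l → ¬ ∃ x, ht a B i x = ht a B j x ∧ ht a B i x = ht a B l x

/-- the `k`-level as a function of `x`: the smallest height with more than `k` lines weakly below,
i.e. the `(k+1)`-st lowest line above `x` -/
noncomputable def level {n : ℕ} (a B : Fin n → ℝ) (k : ℕ) (x : ℝ) : ℝ :=
  sInf {y | k < {l | ht a B l x ≤ y}.ncard}

/-- complexity of the `k`-level: number of abscissae near which the level does not follow a single
line -/
noncomputable def psi {n : ℕ} (a B : Fin n → ℝ) (k : ℕ) : ℕ∞ :=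
  {x : ℝ | ¬ ∃ l, level a B k =ᶠ[𝓝 x] ht a B l}.encard

/-- `F` is a family of lines each of which appears on the lower or on the upper envelope of `F` -/
def OnEnvelope {n : ℕ} (a B : Fin n → ℝ) (F : Finset (Fin n)) : Prop :=
  ∀ i ∈ F, (∃ x, ∀ j ∈ F, j ≠ i → ht a B i x < ht a B j x) ∨
    (∃ x, ∀ j ∈ F, j ≠ i → ht a B j x < ht a B i x)

end Pool.Agent.H268R2.HL
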