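import Pool.Agent.H189R2.Lev.Core
import Pool.Agent.H268R2.HL.Lev
import Pool.Agent.H268R2.HL.LevDefs

/-! The complexity of a level in an arrangement of lines covered by `m` envelopes.
(`Simple`, `crossings`, `level`, `psi` and `psi_le` are those of helper189,
`MP_a08d0a_co.IidLevel`.) -/

set_option autoImplicit false

namespace Pool.Agent.H268R2.HL

open Finset Filter
open scoped Topology

/-- abscissa of the crossing of the lines `i` and `j` (meaningful for `a i ≠ a j`) -/
noncomputable def cr {n : ℕ} (a B : Fin n → ℝ) (i j : Fin n) : ℝ := (B j - B i) / (a i - a j)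

theorem ht_cr {n : ℕ} {a B : Fin n → ℝ} {i j : Fin n} (h : a i ≠ a j) :
    ht a B j (cr a B i j) = ht a B i (cr a B i j) := by
  have h' : a i - a j ≠ 0 := sub_ne_zero.mpr h
  unfold ht cr
  field_simp
  ring

theorem cr_symm {n : ℕ} (a B : Fin n → ℝ) (i j : Fin n) : cr a B i j = cr a B j i := by
  unfold cr
  rw [← neg_sub (B i) (B j), ← neg_sub (a j) (a i), neg_div_neg_eq]

/-- pairs `i < j` of non-parallel lines whose crossing point has exactly `k` lines strictly below -/
def crossings {n : ℕ} (a B : Fin n → ℝ) (k : ℕ) : Set (Fin n × Fin n) :=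
  {q | q.1 < q.2 ∧ a q.1 ≠ a q.2 ∧
    {l | ht a B l (cr a B q.1 q.2) < ht a B q.1 (cr a B q.1 q.2)}.ncard = k}


/-- at a crossing of a simple arrangement exactly two lines pass -/
theorem count3 {n : ℕ} {a B : Fin n → ℝ} (hS : Simple a B) {i j : Fin n} (hij : i ≠ j) {x : ℝ}
    (hx : ht a B i x = ht a B j x) :
    {l | ht a B i x < ht a B l x}.ncard + {l | ht a B l x < ht a B i x}.ncard + 2 = n := by
  classical
  have e1 : {l | ht a B i x < ht a B l x} =
      ((univ.filter (fun l => ht a B i x < ht a B l x) : Finset _) : Set _) := by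
    ext l; simp
  have e2 : {l | ht a B l x < ht a B i x} =
      ((univ.filter (fun l => ht a B l x < ht a B i x) : Finset _) : Set _) := by
    ext l; simp
  rw [e1, e2, Set.ncard_coe_finset, Set.ncard_coe_finset]
  have h1 := Finset.card_filter_add_card_filter_not (s := univ)
    (fun l => ht a B i x < ht a B l x)
  have h2 := Finset.card_filter_add_card_filter_not
    (s := univ.filter (fun l => ¬ ht a B i x < ht a B l x))
    (fun l => ht a B l x < ht a B i x)
  have h3 : (univ.filter (fun l => ¬ ht a B i x < ht a B l x)).filter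
      (fun l => ht a B l x < ht a B i x) = univ.filter (fun l => ht a B l x < ht a B i x) := by
    ext l
    simp only [mem_filter, mem_univ, true_and, not_lt]
    exact ⟨fun h => h.2, fun h => ⟨h.le, h⟩⟩
  have h4 : (univ.filter (fun l => ¬ ht a B i x < ht a B l x)).filter
      (fun l => ¬ ht a B l x < ht a B i x) = {i, j} := by
    ext l
    simp only [mem_filter, mem_univ, true_and, not_lt, mem_insert, mem_singleton]
    constructor
    · rintro ⟨h5, h6⟩
      by_contra hcon
      push Not at hcon
      exact hS.2 i j l hij (Ne.symm hcon.1) (Ne.symm hcon.2) ⟨x, hx, le_antisymm h6 h5⟩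
    · rintro (rfl | rfl)
      · exact ⟨le_rfl, le_rfl⟩
      · exact ⟨hx.ge, hx.le⟩
  rw [h3, h4, card_pair hij] at h2
  simp only [card_univ, Fintype.card_fin] at h1
  omega

theorem level_eq {n : ℕ} {a B : Fin n → ℝ} {k : ℕ} {x y : ℝ}
    (h1 : {l | ht a B l x < y}.ncard ≤ k) (h2 : k < {l | ht a B l x ≤ y}.ncard) :
    level a B k x = y := by
  apply IsLeast.csInf_eq
  refine ⟨h2, ?_⟩
  intro y' hy'
  rw [Set.mem_ofPred_eq] at hy'
  by_contra hcon
  push Not at hcon
  have := Set.ncard_le_ncard (s := {l | ht a B l x ≤ y'}) (t := {l | ht a B l x < y})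
    (fun l hl => lt_of_le_of_lt hl hcon) (Set.toFinite _)
  omega

theorem exists_level {n : ℕ} (a B : Fin n → ℝ) {k : ℕ} (hk : k < n) (x : ℝ) :
    ∃ i, {l | ht a B l x < ht a B i x}.ncard ≤ k ∧ k < {l | ht a B l x ≤ ht a B i x}.ncard := by
  classical
  obtain ⟨s, hs1, hs2⟩ := Pool.Agent.H189R2.Lev.exists_stat (univ : Finset (Fin n)) (fun l => -ht a B l x) (k := k)
    (by simpa using hk)
  have h : ∃ i, ht a B i x = -s := by
    by_contra hcon
    push Not at hcon
    have hsub : univ.filter (fun l => s ≤ -ht a B l x) ⊆ univ.filter (fun l => s < -ht a B l x) := by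
      intro l hl
      rw [mem_filter] at hl ⊢
      refine ⟨hl.1, lt_of_le_of_ne hl.2 (fun h => hcon l ?_)⟩
      linarith
    have := card_le_card hsub
    omega
  obtain ⟨i, hi⟩ := h
  refine ⟨i, ?_, ?_⟩
  · rw [← Set.ncard_coe_finset] at hs1
    refine le_trans (Set.ncard_le_ncard ?_ (Set.toFinite _)) hs1
    intro l hl
    rw [Set.mem_ofPred_eq, hi] at hl
    simp only [coe_filter, mem_univ, true_and, Set.mem_ofPred_eq]
    linarith
  · rw [← Set.ncard_coe_finset] at hs2
    refine lt_of_lt_of_le hs2 (Set.ncard_le_ncard ?_ (Set.toFinite _))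
    intro l hl
    simp only [coe_filter, mem_univ, true_and, Set.mem_ofPred_eq] at hl
    rw [Set.mem_ofPred_eq, hi]
    linarith

theorem psi_le {n : ℕ} {a B : Fin n → ℝ} (hS : Simple a B) {k : ℕ} (hk : k < n) :
    psi a B k ≤ ((crossings a B k).ncard + (if k = 0 then 0 else (crossings a B (k - 1)).ncard) :
      ℕ) := by
  classical
  set C' : Set (Fin n × Fin n) := if k = 0 then ∅ else crossings a B (k - 1) with hC'
  have hC'n : C'.ncard = if k = 0 then 0 else (crossings a B (k - 1)).ncard := by
    rw [hC']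
    split_ifs <;> simp
  have hsub : {x : ℝ | ¬ ∃ l, level a B k =ᶠ[𝓝 x] ht a B l} ⊆
      (fun q : Fin n × Fin n => cr a B q.1 q.2) '' (crossings a B k ∪ C') := by
    intro x hx
    rw [Set.mem_ofPred_eq] at hx
    obtain ⟨i, hi1, hi2⟩ := exists_level a B hk x
    have hcont : ∀ l, Continuous (ht a B l) := by
      intro l; unfold ht; fun_prop
    -- another line passes through the point
    have hex : ∃ j, j ≠ i ∧ ht a B j x = ht a B i x := by
      by_contra hcon
      push Not at hcon
      apply hx
      refine ⟨i, ?_⟩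
      have hev : ∀ᶠ x' in 𝓝 x, ∀ l ∈ (univ : Finset (Fin n)),
          (ht a B l x < ht a B i x → ht a B l x' < ht a B i x') ∧
          (ht a B i x < ht a B l x → ht a B i x' < ht a B l x') := by
        rw [Filter.eventually_all_finset]
        intro l _
        rw [Filter.eventually_and]
        constructor
        · by_cases h : ht a B l x < ht a B i x
          · filter_upwards [((hcont l).tendsto x).eventually_lt ((hcont i).tendsto x) h]
              with x' hx' _
            exact hx'
          · exact Eventually.of_forall (fun _ h' => absurd h' h)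
        · by_cases h : ht a B i x < ht a B l x
          · filter_upwards [((hcont i).tendsto x).eventually_lt ((hcont l).tendsto x) h]
              with x' hx' _
            exact hx'
          · exact Eventually.of_forall (fun _ h' => absurd h' h)
      filter_upwards [hev] with x' hx'
      apply level_eq
      · refine le_trans (Set.ncard_le_ncard ?_ (Set.toFinite _)) hi1
        intro l hl
        rw [Set.mem_ofPred_eq] at hl ⊢
        by_contra h
        push Not at h
        rcases h.lt_or_eq with h | h
        · have := (hx' l (mem_univ l)).2 h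
          linarith
        · by_cases hli : l = i
          · subst hli; exact lt_irrefl _ hl
          · exact hcon l hli h.symm
      · refine lt_of_lt_of_le hi2 (Set.ncard_le_ncard ?_ (Set.toFinite _))
        intro l hl
        rw [Set.mem_ofPred_eq] at hl ⊢
        rcases hl.lt_or_eq with h | h
        · exact ((hx' l (mem_univ l)).1 h).le
        · by_cases hli : l = i
          · subst hli; exact le_rfl
          · exact absurd h (hcon l hli)
    obtain ⟨j, hji, hj⟩ := hex
    have haij : a i ≠ a j := by
      intro h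
      apply hS.1 i j (Ne.symm hji) h
      unfold ht at hj
      rw [h] at hj
      linarith
    have hcrx : x = cr a B i j := by
      unfold cr
      rw [eq_div_iff (sub_ne_zero.mpr haij)]
      unfold ht at hj
      linarith
    have hc3 := count3 hS (Ne.symm hji) hj.symm
    have hle : {l | ht a B l x ≤ ht a B i x}.ncard = {l | ht a B l x < ht a B i x}.ncard + 2 := by
      have e : {l | ht a B l x ≤ ht a B i x} = {l | ht a B i x < ht a B l x}ᶜ := by
        ext l
        simp
      have e' := Set.ncard_compl ({l | ht a B i x < ht a B l x}) (Set.toFinite _)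
      rw [← e] at e'
      simp only [Nat.card_eq_fintype_card, Fintype.card_fin] at e'
      omega
    have hkk : {l | ht a B l x < ht a B i x}.ncard = k ∨
        (k ≠ 0 ∧ {l | ht a B l x < ht a B i x}.ncard = k - 1) := by omega
    have hmem : ∀ q : Fin n × Fin n, q.1 < q.2 → a q.1 ≠ a q.2 → x = cr a B q.1 q.2 →
        ht a B q.1 x = ht a B i x → q ∈ crossings a B k ∪ C' := by
      intro q h1 h2 h3 h4
      rcases hkk with h | ⟨h0, h⟩
      · left
        refine ⟨h1, h2, ?_⟩
        rw [← h3, h4]
        exact h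
      · right
        rw [hC', if_neg h0]
        refine ⟨h1, h2, ?_⟩
        rw [← h3, h4]
        exact h
    rcases lt_or_gt_of_ne hji with h | h
    · refine ⟨(j, i), hmem (j, i) h haij.symm ?_ hj, ?_⟩
      · rw [hcrx]; exact cr_symm _ _ _ _
      · rw [hcrx]; exact cr_symm _ _ _ _
    · exact ⟨(i, j), hmem (i, j) h haij hcrx rfl, hcrx.symm⟩
  calc psi a B k ≤ ((fun q : Fin n × Fin n => cr a B q.1 q.2) '' (crossings a B k ∪ C')).encard :=
        Set.encard_le_encard hsub
    _ ≤ (crossings a B k ∪ C').encard := Set.encard_image_le _ _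
    _ ≤ (crossings a B k).encard + C'.encard := Set.encard_union_le _ _
    _ = _ := by
        rw [← (Set.toFinite (crossings a B k)).cast_ncard_eq, ← (Set.toFinite C').cast_ncard_eq,
          hC'n]
        push_cast
        rfl


section
open Classical

theorem convex_of_envelope {n : ℕ} {a B : Fin n → ℝ} {F : Finset (Fin n)}
    (h : OnEnvelope a B F) : ConvexPosition (F.image (fun l => (a l, B l))) := by
  intro q hq hmem
  rw [mem_image] at hq
  obtain ⟨i, hi, rfl⟩ := hq
  rcases h i hi with ⟨x, hx⟩ | ⟨x, hx⟩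
  · have hconv : Convex ℝ {p : ℝ × ℝ | ht a B i x < p.1 * x + p.2} := by
      intro p hp q hq u v hu hv huv
      simp only [Set.mem_ofPred_eq, Prod.fst_add, Prod.smul_fst, smul_eq_mul, Prod.snd_add,
        Prod.smul_snd] at hp hq ⊢
      have e : (u * p.1 + v * q.1) * x + (u * p.2 + v * q.2) =
          u * (p.1 * x + p.2) + v * (q.1 * x + q.2) := by ring
      rw [e]
      have e2 : ht a B i x = u * ht a B i x + v * ht a B i x := by rw [← add_mul, huv, one_mul]
      rw [e2]
      rcases hu.eq_or_lt with h0 | h0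
      · have : v = 1 := by linarith
        rw [← h0, this]
        simpa using hq
      · have h1 := mul_lt_mul_of_pos_left hp h0
        have h2 := mul_le_mul_of_nonneg_left hq.le hv
        linarith
    have hsub : {p : ℝ × ℝ | p ∈ F.image (fun l => (a l, B l)) ∧ p ≠ (a i, B i)} ⊆
        {p : ℝ × ℝ | ht a B i x < p.1 * x + p.2} := by
      rintro p ⟨h1, h2⟩
      rw [mem_image] at h1
      obtain ⟨j, hj, rfl⟩ := h1
      exact hx j hj (fun h => h2 (by rw [h]))
    have h1 : ht a B i x < a i * x + B i := convexHull_min hsub hconv hmem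
    exact lt_irrefl _ h1
  · have hconv : Convex ℝ {p : ℝ × ℝ | p.1 * x + p.2 < ht a B i x} := by
      intro p hp q hq u v hu hv huv
      simp only [Set.mem_ofPred_eq, Prod.fst_add, Prod.smul_fst, smul_eq_mul, Prod.snd_add,
        Prod.smul_snd] at hp hq ⊢
      have e : (u * p.1 + v * q.1) * x + (u * p.2 + v * q.2) =
          u * (p.1 * x + p.2) + v * (q.1 * x + q.2) := by ring
      rw [e]
      have e2 : ht a B i x = u * ht a B i x + v * ht a B i x := by rw [← add_mul, huv, one_mul]
      rw [e2]
      rcases hu.eq_or_lt with h0 | h0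
      · have : v = 1 := by linarith
        rw [← h0, this]
        simpa using hq
      · have h1 := mul_lt_mul_of_pos_left hp h0
        have h2 := mul_le_mul_of_nonneg_left hq.le hv
        linarith
    have hsub : {p : ℝ × ℝ | p ∈ F.image (fun l => (a l, B l)) ∧ p ≠ (a i, B i)} ⊆
        {p : ℝ × ℝ | p.1 * x + p.2 < ht a B i x} := by
      rintro p ⟨h1, h2⟩
      rw [mem_image] at h1
      obtain ⟨j, hj, rfl⟩ := h1
      exact hx j hj (fun h => h2 (by rw [h]))
    have h1 : a i * x + B i < ht a B i x := convexHull_min hsub hconv hmem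
    exact lt_irrefl _ h1

/-- the number of crossings with exactly `k` lines below -/
theorem crossings_le {n : ℕ} {a B : Fin n → ℝ} (hS : Simple a B) {m : ℕ}
    (F : Fin m → Finset (Fin n)) (hF : ∀ c, OnEnvelope a B (F c)) (hcov : ∀ i, ∃ c, i ∈ F c)
    (k : ℕ) : (crossings a B k).ncard + n ≤ 2 * m * n := by
  set g : Fin n → ℝ × ℝ := fun l => (a l, B l) with hg
  have hginj : Function.Injective g := by
    intro i j h
    by_contra hne
    exact hS.1 i j hne (congrArg Prod.fst h) (congrArg Prod.snd h)
  set P : Finset (ℝ × ℝ) := univ.image g with hP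
  have hPc : P.card = n := by
    rw [hP, card_image_of_injective _ hginj, card_univ, Fintype.card_fin]
  have hmemP : ∀ i, g i ∈ P := fun i => mem_image_of_mem _ (mem_univ i)
  have hSP : ∀ p ∈ P, ∀ q ∈ P, ∀ r ∈ P, p ≠ q → p ≠ r → q ≠ r →
      ¬ ∃ x, hgt p x = hgt q x ∧ hgt p x = hgt r x := by
    intro p hp q hq r hr hpq hpr hqr
    rw [hP, mem_image] at hp hq hr
    obtain ⟨i, -, rfl⟩ := hp
    obtain ⟨j, -, rfl⟩ := hq
    obtain ⟨l, -, rfl⟩ := hr
    exact hS.2 i j l (fun h => hpq (by rw [h])) (fun h => hpr (by rw [h]))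
      (fun h => hqr (by rw [h]))
  have htot := total (P := P) (t := 2) (fun x y => RL_symm) (fun x hx => hx.1 rfl)
    (node_level k hSP) (fun c => (F c).image g)
    (fun c p hp => by
      rw [mem_image] at hp
      obtain ⟨i, _, rfl⟩ := hp
      exact hmemP i)
    (fun p hp => by
      rw [hP, mem_image] at hp
      obtain ⟨i, _, rfl⟩ := hp
      obtain ⟨c, hc⟩ := hcov i
      exact ⟨c, mem_image_of_mem _ hc⟩)
    (fun c => convex_of_envelope (hF c))
  rw [hPc] at htot
  -- crossings inject (twice) into the edges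
  have hcr : ∀ i j : Fin n, crx (g i) (g j) = cr a B i j := fun i j => rfl
  have hRL : ∀ i j : Fin n, a i ≠ a j →
      {l | ht a B l (cr a B i j) < ht a B i (cr a B i j)}.ncard = k → RL P k (g i) (g j) := by
    intro i j hij hk
    refine ⟨hij, ?_⟩
    rw [hcr]
    rw [← hk]
    have : {r : ℝ × ℝ | r ∈ P ∧ hgt r (cr a B i j) < hgt (g i) (cr a B i j)} =
        g '' {l | ht a B l (cr a B i j) < ht a B i (cr a B i j)} := by
      ext r
      rw [Set.mem_ofPred_eq, Set.mem_image]
      constructor
      · rintro ⟨h1, h2⟩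
        rw [hP, mem_image] at h1
        obtain ⟨l, _, rfl⟩ := h1
        exact ⟨l, h2, rfl⟩
      · rintro ⟨l, h1, rfl⟩
        exact ⟨hmemP l, h1⟩
    rw [this, Set.ncard_image_of_injective _ hginj]
  set S := (P ×ˢ P).filter (fun z => RL P k z.1 z.2) with hSdef
  have hSc : S.card = ∑ q ∈ P, (P.filter (fun p => RL P k q p)).card := by
    rw [hSdef, card_filter, sum_product]
    simp only [card_filter]
  set C := (Set.toFinite (crossings a B k)).toFinset with hC
  have hCc : (crossings a B k).ncard = C.card := by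
    rw [hC, Set.ncard_eq_toFinset_card _ (Set.toFinite _)]
  have h2 : (C.image (fun z : Fin n × Fin n => (g z.1, g z.2))) ∪
      (C.image (fun z : Fin n × Fin n => (g z.2, g z.1))) ⊆ S := by
    intro w hw
    rw [mem_union, mem_image, mem_image] at hw
    rw [hSdef, mem_filter, mem_product]
    rcases hw with ⟨z, hz, rfl⟩ | ⟨z, hz, rfl⟩
    · rw [hC, Set.Finite.mem_toFinset] at hz
      exact ⟨⟨hmemP _, hmemP _⟩, hRL _ _ hz.2.1 hz.2.2⟩
    · rw [hC, Set.Finite.mem_toFinset] at hz
      exact ⟨⟨hmemP _, hmemP _⟩, RL_symm (hRL _ _ hz.2.1 hz.2.2)⟩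
  have h3 := card_le_card h2
  rw [card_union_of_disjoint, card_image_of_injective, card_image_of_injective] at h3
  · rw [hCc]
    have e : 2 * 2 * m * n = 2 * (2 * m * n) := by ring
    rw [e] at htot
    omega
  · intro z w h
    have h1 := hginj (congrArg Prod.fst h)
    have h2 := hginj (congrArg Prod.snd h)
    exact Prod.ext h2 h1
  · intro z w h
    have h1 := hginj (congrArg Prod.fst h)
    have h2 := hginj (congrArg Prod.snd h)
    exact Prod.ext h1 h2
  · rw [disjoint_left]
    intro w h4 h5
    rw [mem_image] at h4 h5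
    obtain ⟨z, hz, rfl⟩ := h4
    obtain ⟨z', hz', h⟩ := h5
    have e1 := hginj (congrArg Prod.fst h)
    have e2 := hginj (congrArg Prod.snd h)
    rw [hC, Set.Finite.mem_toFinset] at hz hz'
    have l1 : z.1 < z.2 := hz.1
    have l2 : z'.1 < z'.2 := hz'.1
    rw [e1, e2] at l2
    exact lt_asymm l1 l2

end

theorem level_main {n : ℕ} {a B : Fin n → ℝ} (hS : Simple a B) {m : ℕ}
    (F : Fin m → Finset (Fin n)) (hF : ∀ c, OnEnvelope a B (F c)) (hcov : ∀ i, ∃ c, i ∈ F c)
    {k : ℕ} (hk : k < n) : psi a B k ≤ ((4 * m - 2) * n : ℕ) := by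
  refine (psi_le hS hk).trans ?_
  norm_cast
  have h1 := crossings_le hS F hF hcov k
  have h2 := crossings_le hS F hF hcov (k - 1)
  have hm : 1 ≤ m := by
    obtain ⟨c, _⟩ := hcov ⟨0, by omega⟩
    exact Nat.one_le_iff_ne_zero.mpr (fun h => by subst h; exact c.elim0)
  obtain ⟨m', rfl⟩ : ∃ m', m = m' + 1 := ⟨m - 1, by omega⟩
  have e : (4 * (m' + 1) - 2) * n = 4 * m' * n + 2 * n := by
    have : 4 * (m' + 1) - 2 = 4 * m' + 2 := by omega
    rw [this]; ring
  have e2 : 2 * (m' + 1) * n = 2 * m' * n + 2 * n := by ring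
  have e3 : 4 * m' * n = 2 * (2 * m' * n) := by ring
  rw [e, e3]
  rw [e2] at h1 h2
  split_ifs <;> omega

end Pool.Agent.H268R2.HL
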